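import Pool.Agent.U647.IS.LSurf
import Pool.Agent.Y377.IL.AllA
import Pool.Agent.TH182.TC.Core

/-!
# Surfaces without maps from complex tori
-/

set_option autoImplicit false

open MvPolynomial FF Set Filter Topology

namespace Pool.Agent.U647.IS

open Pool.Agent.W602.GT (IsForm val coords SubVar Cone GeneralType VarPts)
open Pool.Agent.TH143.HE (IsPtP RatCurvesIn)
open Pool.Agent.TH143.EL (InV TorusMapsIn Rep)
open Pool.Agent.Y719.LC
open Pool.Agent.Y377.IL (IterLin iter_main)
open Pool.Agent.N155 (AllSubGeneral SmoothSurface)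
open Pool.Agent.N154.TB (CurveIn IsConst BrodyHyp)
open Pool.Agent.U647.LT
open Pool.Agent.TH182.TC (EllipticRigid TorusRigid Holo OnX)
open scoped LinearAlgebra.Projectivization

variable {n : ℕ} {ι : Type}

/-- **Varieties without maps from one-dimensional complex tori** contain no rational and no elliptic
curves. -/
theorem alg_of_torus {R : Type} [CommRing R] {σ : R →+* ℂ}
    {I I' : Ideal (MvPolynomial (Fin (n + 1)) R)}
    (hT : TorusMapsIn (cI σ I) (cI σ I')) : RatCurvesIn σ I I' ∧ EllIn σ I I' := by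
  have hbase : ∀ {B : Subalgebra ℂ (ℂ → ℂ)} {b : ℂ → ℂ}, b ∈ B → IterLin B b := by
    intro B b hb
    have h1 := IterLin.quot (B := B) hb (one_mem B)
    have h2 : (fun z => b z / (1 : ℂ → ℂ) z) = b := by
      funext z
      rw [Pi.one_apply, div_one]
    rwa [h2] at h1
  refine ⟨rat_cI.1 (Pool.Agent.TH143.EL.ratCurves_of_torus hT), ell_of_ent ?_⟩
  rintro f hf ⟨B, hB, g, hg, hr⟩ hI hnc z
  exact iter_main hT hB hf (fun j => hbase (hg j)) hr hI hnc z

theorem conj_id (F : ι → MvPolynomial (Fin (n + 1)) ℂ) : Conj (RingHom.id ℂ) F = F := by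
  funext i
  unfold Conj
  exact map_id _

theorem onX_iff {F : ι → MvPolynomial (Fin (n + 1)) ℂ} (p : ℙ ℂ (Fin (n + 1) → ℂ)) :
    OnX F p ↔ p.rep ∈ Cone F := by
  unfold Pool.Agent.TH182.TC.OnX Pool.Agent.W602.GT.Cone Pool.Agent.W602.GT.val
  constructor
  · intro h
    exact ⟨p.rep_nonzero, fun i => by rw [aeval_eq_eval]; exact h i⟩
  · intro h i
    have h1 := h.2 i
    rw [aeval_eq_eval] at h1
    exact h1

theorem allSub_of_torus {F : ι → MvPolynomial (Fin (n + 1)) ℂ} {K : Type} [Field K] [Algebra ℂ K]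
    {y : Fin (n + 1) → K} (hX : SmoothSurface F y) (hgt : GeneralType ℂ K 2)
    (hT : EllipticRigid F) : AllSubGeneral F := by
  refine allSub_of hX.sub hX.irred hgt fun E _ _ v hv => ?_
  have h1 : TorusMapsIn (cI (RingHom.id ℂ) (Ideal.span (Set.range F)))
      (cI (RingHom.id ℂ) (Ideal.span (Set.range fun _ : Unit => 1))) := by
    intro ω₁ ω₂ hind f hf h1 h2 hI hnc
    exfalso
    obtain ⟨z, w, hzw⟩ := hnc
    apply hzw
    refine hT ω₁ ω₂ hind f (fun a => ?_) (fun z => ?_) h1 h2 z w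
    · obtain ⟨g, hg, hgf⟩ := hf a
      refine ⟨fun z j => g j z, analyticAt_pi_iff.2 hg, ?_⟩
      filter_upwards [hgf] with z hz
      exact hz
    · rw [onX_iff]
      have h3 := (mem_cone_iff (σ := RingHom.id ℂ) hX.form (f z).rep_nonzero).2
        ((inV_cI_rep _).1 (hI z))
      rwa [conj_id] at h3
  obtain ⟨hR, hE⟩ := alg_of_torus h1
  exact gt_of_low (RingHom.id ℂ) hX.form hR hE E v (by rwa [conj_id])

/-- entire curves and maps from complex tori of any dimension -/
theorem torusRigid_of_brody {F : ι → MvPolynomial (Fin (n + 1)) ℂ} (hB : BrodyHyp (Cone F)) :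
    TorusRigid F := by
  intro m b g hg hX _ z w
  have h1 := hB (fun t => g (z + t • (w - z))) ⟨fun t => ?_, fun t => (onX_iff _).1 (hX _)⟩ 0 1
  · simpa using h1
  · obtain ⟨φ, hφ, hφg⟩ := hg (z + t • (w - z))
    have hlin : AnalyticAt ℂ (fun t : ℂ => z + t • (w - z)) t := by fun_prop
    have h2 : AnalyticAt ℂ (fun t : ℂ => φ (z + t • (w - z))) t :=
      AnalyticAt.fun_comp (g := φ) (f := fun t : ℂ => z + t • (w - z)) hφ hlin
    have h3 : ∀ᶠ s in 𝓝 t, ∃ h : φ (z + s • (w - z)) ≠ 0, g (z + s • (w - z)) =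
        Projectivization.mk ℂ (φ (z + s • (w - z))) h := hlin.continuousAt.eventually hφg
    obtain ⟨V, hV, hVo, htV⟩ := eventually_nhds_iff.1 (h2.eventually_analyticAt.and h3)
    exact ⟨V, fun s => φ (z + s • (w - z)), hVo, htV,
      fun s hs => (hV s hs).1.differentiableAt.differentiableWithinAt, fun s hs => (hV s hs).2⟩

end Pool.Agent.U647.IS
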