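import Pool.Agent.N154.TB.VGeo

/-!
# Brody hyperbolic projective sets

The case of the zero-dimensional torus of `Pool.Agent.N154.TB.abel_geo`: the Kobayashi distance of a
projective set without nonconstant entire curves is bounded below by a multiple of a projective
distance (Brody), and the maps from the punctured disc extend (Kwack). The Kobayashi distance of the
points of an entire curve is zero.
-/

set_option autoImplicit false

open MvPolynomial FF Filter Topology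

namespace Pool.Agent.U647.IS

open Pool.Agent.W602.GT (IsForm val Cone)
open Pool.Agent.N154.TB (CurveIn IsConst BrodyHyp HypFibres TwoForms Zeros)
open Pool.Agent.N154.TT (HolToTorus RiemannForm)
open Pool.Agent.N154.GG (kobayashi projDist PunctIn Extends poincareDist IsChainLength HolMapOn)
open scoped LinearAlgebra.Projectivization

variable {n : ℕ} {ι : Type} {F : ι → MvPolynomial (Fin (n + 1)) ℂ}

/-- the trivial data -/
theorem triv_data (F : ι → MvPolynomial (Fin (n + 1)) ℂ) :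
    ∃ (α : (Fin (n + 1) → ℂ) → (Fin 0 → ℂ) ⧸ (⊥ : Submodule ℤ (Fin 0 → ℂ)))
      (G : Unit → MvPolynomial (Fin (n + 1)) ℂ) (k : Empty → ℕ)
      (η : Empty → (Fin (n + 1) → ℂ) → (Fin (n + 1) → ℂ) → (Fin (n + 1) → ℂ) → ℂ)
      (H : (Fin 0 → ℂ) → (Fin 0 → ℂ) → ℂ),
      (∀ j, IsForm (G j)) ∧ (∀ x, x ∈ Zeros G) ∧ TwoForms (Cone F) (Zeros G) 0 α k η ∧
      RiemannForm (⊥ : Submodule ℤ (Fin 0 → ℂ)) H ∧
      HolToTorus (Cone F) (⊥ : Submodule ℤ (Fin 0 → ℂ)) α := by
  have hZero : ∀ x : Fin (n + 1) → ℂ,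
      x ∈ Zeros (fun _ : Unit => (0 : MvPolynomial (Fin (n + 1)) ℂ)) := by
    intro x j
    change val x 0 = 0
    unfold Pool.Agent.W602.GT.val
    exact map_zero _
  refine ⟨fun _ => 0, fun _ => 0, fun _ => 0, fun _ _ _ _ => 0, fun _ _ => 0,
    fun _ => ⟨0, isHomogeneous_zero _ _ _⟩, hZero, ?_, ?_, ?_⟩
  · refine ⟨fun x _ h => absurd (hZero x) h, ⟨fun q => q.elim, fun q => q.elim, fun q => q.elim⟩,
      ⟨fun q => q.elim, fun x _ _ => ⟨Set.univ, isOpen_univ, Set.mem_univ _, fun q => q.elim⟩⟩, ?_⟩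
    intro U Ψ W _ _ _ _ z _ h
    exact absurd (hZero _) h
  · exact ⟨fun _ _ _ => by simp, fun _ _ _ => by simp, fun _ _ => by simp,
      fun x hx => absurd (Subsingleton.elim x 0) hx, fun _ _ _ _ => ⟨0, by simp⟩⟩
  · refine ⟨fun _ _ _ _ => rfl, fun x _ => ⟨fun _ => 0, analyticAt_const, ?_⟩⟩
    filter_upwards with u _
    rfl

theorem discr : DiscreteTopology (⊥ : Submodule ℤ (Fin 0 → ℂ)) := by
  have : Subsingleton (⊥ : Submodule ℤ (Fin 0 → ℂ)) := inferInstance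
  infer_instance

theorem zlat : @IsZLattice ℝ _ (Fin 0 → ℂ) _ _ (⊥ : Submodule ℤ (Fin 0 → ℂ)) discr := by
  have := discr
  exact ⟨by
    rw [eq_top_iff]
    intro x _
    rw [Subsingleton.elim x 0]
    exact zero_mem _⟩

theorem geo_of_brody (hF : ∀ i, IsForm (F i)) (hB : BrodyHyp (Cone F)) :
    (∃ c : ℝ, 0 < c ∧ ∀ p q : ℙ ℂ (Fin (n + 1) → ℂ), p.rep ∈ Cone F → q.rep ∈ Cone F →
      ENNReal.ofReal (c * min 1 (projDist p q)) ≤ kobayashi (Cone F) p q) ∧
    ∀ f, PunctIn F f → Extends F f := by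
  have hL := discr
  have hZ := zlat
  obtain ⟨α, G, k, η, H, hG, hZero, hη, hH, hα⟩ := triv_data F
  have hfib : HypFibres (Cone F) α := fun f hf _ => hB f hf
  have hB' : BrodyHyp (Cone F ∩ Zeros G) := fun f hf => hB f ⟨hf.1, fun z => (hf.2 z).1⟩
  obtain ⟨S, -, h2, -, h4, h5, -⟩ := Pool.Agent.N154.TB.abel_geo hF hG hB' hη hH hα hfib
  have hS : ∀ g, g ∉ S := by
    intro g hg
    obtain ⟨-, -, v, w, hv, -⟩ := h2 g hg
    exact hv (Subsingleton.elim _ _)
  refine ⟨?_, fun f hf => (h4 f hf).resolve_right ?_⟩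
  · obtain ⟨c, hc, hcb⟩ := h5 1 one_pos
    refine ⟨c, hc, fun p q hp hq => ?_⟩
    have h7 := hcb p q hp hq 1 zero_le_one le_rfl fun g hg => absurd hg (hS g)
    rwa [Real.one_rpow, mul_one] at h7
  · rintro ⟨g, hg, -⟩
    exact hS g hg

/-- closures are closed -/
theorem mem_cone_of_lim (hF : ∀ i, IsForm (F i)) {f : ℂ → ℙ ℂ (Fin (n + 1) → ℂ)}
    (hf : ∀ z, (f z).rep ∈ Cone F) {p : ℙ ℂ (Fin (n + 1) → ℂ)}
    (hp : ∀ ε > 0, ∃ w, projDist p (f w) < ε) : p.rep ∈ Cone F := by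
  have hX := Pool.Agent.N154.TB.cone_conic hF
  have h1 : Pool.Agent.Y190.OP.Phi p.rep ∈ closure (Pool.Agent.N154.TB.TS (Cone F)) := by
    rw [Metric.mem_closure_iff]
    intro ε hε
    obtain ⟨w, hw⟩ := hp ε hε
    refine ⟨_, Pool.Agent.N154.TB.mem_TS (hf w), ?_⟩
    rw [dist_eq_norm]
    exact hw
  rw [(Pool.Agent.N154.TB.isCompact_TF hF).isClosed.closure_eq] at h1
  have h2 := Pool.Agent.N154.TB.rep_toProj hX h1
  rwa [Pool.Agent.N154.GG.toProj_Phi_rep] at h2

theorem projDist_triangle (p q r : ℙ ℂ (Fin (n + 1) → ℂ)) :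
    projDist p r ≤ projDist p q + projDist q r := by
  unfold projDist
  exact norm_sub_le_norm_sub_add_norm_sub _ _ _

theorem projDist_self (p : ℙ ℂ (Fin (n + 1) → ℂ)) : projDist p p = 0 := by
  unfold projDist
  rw [sub_self, norm_zero]

/-- **Brody's lemma** -/
theorem brody_curve (hF : ∀ i, IsForm (F i)) {f : ℂ → ℙ ℂ (Fin (n + 1) → ℂ)}
    (hf : CurveIn (Cone F) f) (hnc : ¬ IsConst f) :
    ∃ h, CurveIn (Cone F) h ∧ ¬ IsConst h ∧ (∀ z, ∀ ε > 0, ∃ w, projDist (h z) (f w) < ε) ∧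
      ∀ z w, projDist (h z) (h w) ≤ 2 * ‖z - w‖ := by
  have hL := discr
  have hZ := zlat
  obtain ⟨α, G, k, η, H, hG, hZero, hη, hH, hα⟩ := triv_data F
  have hVX : ∀ p ∈ {p : ℙ ℂ (Fin (n + 1) → ℂ) | ∀ ε > 0, ∃ w, projDist p (f w) < ε},
      p.rep ∈ Cone F := fun p hp => mem_cone_of_lim hF hf.2 hp
  have hVc : ∀ p, (∀ ε > 0, ∃ q ∈ {p : ℙ ℂ (Fin (n + 1) → ℂ) | ∀ ε > 0, ∃ w,
      projDist p (f w) < ε}, projDist p q < ε) →
      p ∈ {p : ℙ ℂ (Fin (n + 1) → ℂ) | ∀ ε > 0, ∃ w, projDist p (f w) < ε} := by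
    intro p hp ε hε
    obtain ⟨q, hq, hpq⟩ := hp (ε / 2) (half_pos hε)
    obtain ⟨w, hw⟩ := hq (ε / 2) (half_pos hε)
    exact ⟨w, by linarith [projDist_triangle p q (f w)]⟩
  have hfV : ∀ z, f z ∈ {p : ℙ ℂ (Fin (n + 1) → ℂ) | ∀ ε > 0, ∃ w, projDist p (f w) < ε} := by
    intro z ε hε
    exact ⟨z, by rwa [projDist_self]⟩
  rcases Pool.Agent.N154.TB.closed_geo hF hG hη hH hα hVX hVc with
    ⟨h, h1, h2, h3, -, h5⟩ | ⟨S, -, h2, h3, -⟩
  · exact ⟨h, h1, h2, fun z => h3 z, h5⟩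
  · exfalso
    rcases h3 f hf hfV with h4 | ⟨g, hg, -⟩
    · exact hnc h4
    · obtain ⟨-, -, -, v, w, hv, -⟩ := h2 g hg
      exact hv (Subsingleton.elim _ _)

/-! ### the Kobayashi distance of the points of an entire curve -/

theorem hol_rescale {f : ℂ → ℙ ℂ (Fin (n + 1) → ℂ)} (hf : Pool.Agent.N154.GG.HolMap f) (a b : ℂ)
    (U : Set ℂ) : HolMapOn U (fun t => f (a + b * t)) := by
  intro t _
  obtain ⟨V, g, hV, hmem, hg, hfg⟩ := hf (a + b * t)
  have hc : Continuous fun t : ℂ => a + b * t := by fun_prop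
  refine ⟨(fun t => a + b * t) ⁻¹' V, fun t => g (a + b * t), hV.preimage hc, hmem, ?_,
    fun w hw => hfg _ hw⟩
  exact hg.comp (by fun_prop) fun w hw => hw

/-- **The Kobayashi distance vanishes on entire curves.** -/
theorem kob_zero {X : Set (Fin (n + 1) → ℂ)} {f : ℂ → ℙ ℂ (Fin (n + 1) → ℂ)} (hf : CurveIn X f)
    (z w : ℂ) : kobayashi X (f z) (f w) = 0 := by
  -- the chain of one disc
  have hchain : ∀ R : ℝ, ‖w - z‖ < R →
      IsChainLength X (f z) (f w) (poincareDist 0 ((w - z) / R)) := by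
    intro R hR
    have hR0 : 0 < R := (norm_nonneg _).trans_lt hR
    have hRC : (R : ℂ) ≠ 0 := by exact_mod_cast hR0.ne'
    refine ⟨1, ![f z, f w], fun _ t => f (z + R * t), fun _ => 0, fun _ => (w - z) / R, rfl, rfl,
      fun i => ⟨hol_rescale hf.1 z R _, fun t _ => hf.2 _, by simp, ?_, ?_, ?_⟩, ?_⟩
    · rw [mem_ball_zero_iff, norm_div, Complex.norm_real, Real.norm_eq_abs, abs_of_pos hR0,
        div_lt_one hR0]
      exact hR
    · have h0 : i = 0 := Subsingleton.elim _ _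
      subst h0
      simp
    · have h0 : i = 0 := Subsingleton.elim _ _
      subst h0
      have h1 : z + (R : ℂ) * ((w - z) / R) = w := by
        field_simp
        ring
      simp [h1]
    · simp
  have hlim : Tendsto (fun R : ℝ => ENNReal.ofReal (poincareDist 0 ((w - z) / R))) atTop (𝓝 0) := by
    have h1 : Tendsto (fun R : ℝ => poincareDist 0 ((w - z) / R)) atTop (𝓝 0) := by
      have h2 : ∀ R : ℝ, poincareDist 0 ((w - z) / R) =
          Real.log ((1 + ‖(w - z) / (R : ℂ)‖) / (1 - ‖(w - z) / (R : ℂ)‖)) := by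
        intro R
        unfold poincareDist
        simp
      simp only [h2]
      have h3 : Tendsto (fun R : ℝ => ‖(w - z) / (R : ℂ)‖) atTop (𝓝 0) := by
        have h4 : Tendsto (fun R : ℝ => ‖w - z‖ / R) atTop (𝓝 0) := tendsto_const_nhds.div_atTop
          tendsto_id
        refine h4.congr' ?_
        filter_upwards [eventually_gt_atTop 0] with R hR
        rw [norm_div, Complex.norm_real, Real.norm_eq_abs, abs_of_pos hR]
      have h5 : Tendsto (fun x : ℝ => Real.log ((1 + x) / (1 - x))) (𝓝 0)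
          (𝓝 (Real.log ((1 + 0) / (1 - 0)))) := by
        refine Tendsto.log ?_ (by norm_num)
        exact (tendsto_const_nhds.add tendsto_id).div (tendsto_const_nhds.sub tendsto_id)
          (by norm_num)
      have h6 := h5.comp h3
      have h8 : Real.log ((1 + 0) / (1 - 0)) = 0 := by norm_num
      rw [h8] at h6
      exact h6
    have h7 := (ENNReal.continuous_ofReal.tendsto 0).comp h1
    rw [ENNReal.ofReal_zero] at h7
    exact h7
  refine le_antisymm (ge_of_tendsto hlim ?_) bot_le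
  filter_upwards [eventually_gt_atTop ‖w - z‖] with R hR
  unfold Pool.Agent.N154.GG.kobayashi
  exact iInf₂_le _ (hchain R hR)

/-- Kobayashi hyperbolic sets are Brody hyperbolic. -/
theorem brody_of_kob {X : Set (Fin (n + 1) → ℂ)}
    (h : ∀ p q : ℙ ℂ (Fin (n + 1) → ℂ), p.rep ∈ X → q.rep ∈ X → p ≠ q → 0 < kobayashi X p q) :
    BrodyHyp X := by
  intro f hf z w
  by_contra hne
  have h1 := h _ _ (hf.2 z) (hf.2 w) hne
  rw [kob_zero hf] at h1
  exact lt_irrefl _ h1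

end Pool.Agent.U647.IS
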