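import Pool.Agent.U647.IS.Sub
import Pool.Agent.U647.IS.Geo
import Pool.Agent.U647.LT.Deg
import Pool.Agent.N155.Dns

/-!
# Entire curves in smooth surfaces of general type with a holomorphic map to a complex torus
-/

set_option autoImplicit false

open MvPolynomial FF Set

namespace Pool.Agent.U647.IS

open Pool.Agent.Y190.OP
open Pool.Agent.W602.GT (IsForm val coords SubVar Cone GeneralType VarPts)
open Pool.Agent.N155 (AllSubGeneral SmoothSurface TX nz_Phi cv_of_general)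
open Pool.Agent.N154.TB (CurveIn IsConst BrodyHyp HypFibres TwoForms Zeros Elliptic OverLine)
open Pool.Agent.N154.TT (HolToTorus RiemannForm)
open Pool.Agent.N154.GG (kobayashi projDist PunctIn Extends holP_of)
open Pool.Agent.U647.LT (Low)
open scoped LinearAlgebra.Projectivization

variable {n : ℕ} {ι : Type} {F : ι → MvPolynomial (Fin (n + 1)) ℂ} {K : Type} [Field K]
  [Algebra ℂ K] {y : Fin (n + 1) → K}

/-- curves in a divisor of the surface -/
theorem low_of (hX : SmoothSurface F y) {G : MvPolynomial (Fin (n + 1)) ℂ} (hG : IsForm G)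
    (hne : val y G ≠ 0) {f : ℂ → ℙ ℂ (Fin (n + 1) → ℂ)} (hf : CurveIn (Cone F) f)
    (h0 : ∀ z, val (f z).rep G = 0) : Low f := by
  refine ⟨Option ι, fun o => o.elim G F, ?_, ?_, ?_⟩
  · rintro (_ | i)
    · exact hG
    · exact hX.form i
  · intro E _ _ w v hv
    have hvF : SubVar F E w v := ⟨hv.ne, fun i => hv.mem (some i), hv.gen, hv.dim⟩
    exact dim_le_one hX.sub hX.irred hG hne hvF (hv.mem none)
  · rintro z (_ | i)
    · exact h0 z
    · exact (hf.2 z).2 i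

/-- curves of bounded derivative do not lie in divisors -/
theorem in_div (hX : SmoothSurface F y) (hgen : AllSubGeneral F)
    {f : ℂ → ℙ ℂ (Fin (n + 1) → ℂ)} (hf : CurveIn (Cone F) f)
    (hb : ∃ B : ℝ, ∀ z w, projDist (f z) (f w) ≤ B * ‖z - w‖) (hnc : ¬ IsConst f)
    {G : MvPolynomial (Fin (n + 1)) ℂ} (hG : IsForm G) (h0 : ∀ z, val (f z).rep G = 0) :
    val y G = 0 := by
  by_contra hne
  obtain ⟨B, hB⟩ := hb
  have hcv := cv_of_general hX.form hX.sub (fun K1 _ _ y1 hy1 => hgen K1 1 y1 le_rfl hy1)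
    (holP_of hf.1) (fun z => ⟨(f z).rep, hX.irred (hf.2 z), rfl⟩)
    (Pool.Agent.N154.TB.bounded_of_lip (P := fun z => Phi (f z).rep) hB) (by
      by_contra hcon
      push Not at hcon
      apply hnc
      intro z w
      exact Pool.Agent.N154.GG.proj_ext ((hcon z).trans (hcon w).symm))
  obtain ⟨z, hz⟩ := hcv.dense G hG hne
  obtain ⟨d, hd⟩ := hG
  rw [nz_Phi hd (f z).rep_nonzero] at hz
  exact hz (h0 z)

variable {m : ℕ} {Λ : Submodule ℤ (Fin m → ℂ)} {α : (Fin (n + 1) → ℂ) → (Fin m → ℂ) ⧸ Λ}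

/-- **Surfaces of general type with a map to a complex torus**: if all subvarieties are of general
type then the surface is hyperbolic. -/
theorem brody_irr [DiscreteTopology Λ] [IsZLattice ℝ Λ] (hX : SmoothSurface F y)
    (hgen : AllSubGeneral F) (hα : HolToTorus (Cone F) Λ α)
    (hfib : ∀ c : (Fin m → ℂ) ⧸ Λ, ∃ G : MvPolynomial (Fin (n + 1)) ℂ, IsForm G ∧ val y G ≠ 0 ∧
      ∀ x ∈ Cone F, α x = c → val x G = 0) : BrodyHyp (Cone F) := by
  by_contra hcon
  unfold BrodyHyp at hcon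
  push Not at hcon
  obtain ⟨f, hf, hnc⟩ := hcon
  obtain ⟨h, h1, h2, -, h4⟩ := brody_curve hX.form hf hnc
  obtain ⟨G, η, hG, hGy, hη⟩ := exists_twoForms hX (hgen K 2 y one_le_two hX.sub)
  rcases Pool.Agent.N154.TB.brody_geoS hX.form (fun _ => hG) (hη m Λ α) hα h1 ⟨2, h4⟩ with
    h5 | ⟨-, -, h5⟩ | ⟨g, g1, g2, g3, g4, -⟩
  · obtain ⟨G', hG', hy', hv⟩ := hfib (α (h 0).rep)
    exact hy' (in_div hX hgen h1 ⟨2, h4⟩ h2 hG' fun z => hv _ (h1.2 z) (h5 z 0))
  · obtain ⟨Q, hQ, hQy, hQv⟩ := h5 K 2 y le_rfl hX.sub hX.irred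
    exact hQy (in_div hX hgen h1 ⟨2, h4⟩ h2 hQ hQv)
  · exact hGy (in_div hX hgen g1 ⟨2, g4⟩ g2 hG fun z => g3 z ())

end Pool.Agent.U647.IS
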