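import Pool.Agent.U647.IS.Arith
import Pool.Agent.U647.IS.Irr
import Pool.Agent.N155.L.SFin

/-!
# Lang's conjecture for surfaces with enough differentials
-/

set_option autoImplicit false

open MvPolynomial FF Set Filter

namespace Pool.Agent.U647.IS

open Pool.Agent.W602.GT (IsForm val coords SubVar Cone GeneralType VarPts)
open Pool.Agent.TH143.HE (IsPtP RatCurvesIn)
open Pool.Agent.TH143.EL (InV TorusMapsIn Rep)
open Pool.Agent.Y719.LC
open Pool.Agent.N155 (AllSubGeneral SmoothSurface SymD BrodyHyperbolic)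
open Pool.Agent.N154.TB (CurveIn IsConst BrodyHyp)
open Pool.Agent.N154.TT (HolToTorus)
open Pool.Agent.N154.GG (kobayashi projDist PunctIn Extends)
open Pool.Agent.U647.LT
open scoped LinearAlgebra.Projectivization

variable {n : ℕ} {ι : Type} {k : Type} [Field k]

theorem gg_hol {f : ℂ → ℙ ℂ (Fin (n + 1) → ℂ)} (hf : Pool.Agent.TH143.EL.HolMap f) :
    Pool.Agent.N154.GG.HolMap f := by
  intro a
  obtain ⟨g, hg, hgf⟩ := hf a
  have h1 : ∀ᶠ z in nhds a, (∀ j, AnalyticAt ℂ (g j) z) ∧ Rep (f z) fun j => g j z :=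
    (eventually_all.2 fun j => (hg j).eventually_analyticAt).and hgf
  obtain ⟨V, hV, hVo, haV⟩ := eventually_nhds_iff.1 h1
  exact ⟨V, fun z j => g j z, hVo, haV, differentiableOn_pi.2 fun j z hz =>
    ((hV z hz).1 j).differentiableAt.differentiableWithinAt, fun z hz => (hV z hz).2⟩

theorem inV_cI_rep {σ : k →+* ℂ} {I : Ideal (MvPolynomial (Fin (n + 1)) k)}
    (p : ℙ ℂ (Fin (n + 1) → ℂ)) : InV (cI σ I) p ↔ IsPtP σ I p.rep :=
  inV_cI ⟨p.rep_nonzero, (Projectivization.mk_rep p).symm⟩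

/-- **Brody hyperbolic varieties contain no rational and no elliptic curves.** -/
theorem alg_of_brody (σ : k →+* ℂ) {F : ι → MvPolynomial (Fin (n + 1)) k}
    (hF : ∀ i, IsForm (F i)) (hB : BrodyHyp (Cone (Conj σ F)))
    (I' : Ideal (MvPolynomial (Fin (n + 1)) k)) :
    RatCurvesIn σ (Ideal.span (Set.range F)) I' ∧ EllIn σ (Ideal.span (Set.range F)) I' := by
  have hkey : ∀ f : ℂ → ℙ ℂ (Fin (n + 1) → ℂ), Pool.Agent.TH143.EL.HolMap f →
      (∀ z, InV (cI σ (Ideal.span (Set.range F))) (f z)) → (∃ z w, f z ≠ f w) → False := by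
    rintro f hf hI ⟨z, w, hzw⟩
    exact hzw (hB f ⟨gg_hol hf, fun z =>
      (mem_cone_iff hF (f z).rep_nonzero).2 ((inV_cI_rep _).1 (hI z))⟩ z w)
  refine ⟨rat_cI.1 (Pool.Agent.TH143.EL.ratCurves_of_torus ?_), ell_of_ent ?_⟩
  · intro ω₁ ω₂ _ f hf _ _ hI hnc
    exact (hkey f hf hI hnc).elim
  · intro f hf _ hI hnc
    exact (hkey f hf hI hnc).elim

/-- Maps over finite extensions of `k` from the line and from elliptic curves. -/
theorem genusOne_of_alg (σ : k →+* ℂ) {I I' : Ideal (MvPolynomial (Fin (n + 1)) k)}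
    (hR : RatCurvesIn σ I I') (hE : EllIn σ I I') (L : Type) [Field L] [Algebra k L]
    [FiniteDimensional k L] : AlgIn (algebraMap k L) I I' := by
  let _ : Algebra k ℂ := σ.toAlgebra
  let e : L →ₐ[k] ℂ := IsAlgClosed.lift
  have he : (e : L →+* ℂ).comp (algebraMap k L) = σ := by
    ext r
    exact e.commutes _
  refine ⟨fun p hp => ?_, fun a b P Q hPQ => ?_⟩
  · have h1 := hp.map (e : L →+* ℂ)
    rw [he] at h1
    exact Pool.Agent.TH143.HE.ratCurvesIn_iff.1 hR _ h1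
  · have h1 := hPQ.map (e : L →+* ℂ)
    rw [he] at h1
    exact hE _ _ _ _ h1

variable {K : Type} [Field K] [Algebra ℂ K]

/-- A holomorphic map to a complex torus whose fibres are not Zariski dense. -/
def TorusMap (F : ι → MvPolynomial (Fin (n + 1)) ℂ) (y : Fin (n + 1) → K) : Prop :=
  ∃ (m : ℕ) (Λ : Submodule ℤ (Fin m → ℂ)) (_ : DiscreteTopology Λ) (_ : IsZLattice ℝ Λ)
    (α : (Fin (n + 1) → ℂ) → (Fin m → ℂ) ⧸ Λ), HolToTorus (Cone F) Λ α ∧
    ∀ c : (Fin m → ℂ) ⧸ Λ, ∃ G : MvPolynomial (Fin (n + 1)) ℂ, IsForm G ∧ val y G ≠ 0 ∧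
      ∀ x ∈ Cone F, α x = c → val x G = 0

/-- A nonconstant rational map to an elliptic curve. -/
def EllipticMap (K : Type) [Field K] [Algebra ℂ K] : Prop :=
  ∃ (a b : K) (g2 g3 : ℂ), b ^ 2 = 4 * a ^ 3 - algebraMap ℂ K g2 * a - algebraMap ℂ K g3 ∧
    g2 ^ 3 ≠ 27 * g3 ^ 2 ∧ Transcendental ℂ a

/-- Symmetric differentials without a common direction. -/
def NoDirection (K : Type) [Field K] [Algebra ℂ K] : Prop :=
  ∀ (L : Type) [Field L] [Algebra ℂ L] [Algebra K L] [IsScalarTower ℂ K L]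
    (D : Derivation ℂ K L), (∀ k, D k = 0 → ∃ c : ℂ, k = algebraMap ℂ K c) →
    ∃ σ : SymD K, 0 < σ.d ∧ σ.Regular 2 ∧ σ.app D ≠ 0

/-- A symmetric differential which is a product of rational multiples of exact differentials. -/
def ProductDifferential (K : Type) [Field K] [Algebra ℂ K] : Prop :=
  ∃ (d : ℕ) (h : K) (a : Fin d → K), 0 < d ∧ h ≠ 0 ∧ (∀ l, Transcendental ℂ (a l)) ∧
    (⟨d, 1, fun _ => h, fun _ => a⟩ : SymD K).Regular 2

/-- **Surfaces with enough differentials** -/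
theorem brody_of_all {F : ι → MvPolynomial (Fin (n + 1)) ℂ} {y : Fin (n + 1) → K}
    (hX : SmoothSurface F y) (hgen : AllSubGeneral F)
    (hD : TorusMap F y ∨ EllipticMap K ∨ NoDirection K ∨ ProductDifferential K) :
    BrodyHyp (Cone F) := by
  have hconv : BrodyHyperbolic F → BrodyHyp (Cone F) := fun h f hf => h f hf.1 hf.2
  rcases hD with h | h | h | h
  · obtain ⟨m, Λ, h1, h2, α, hα, hfib⟩ := h
    exact brody_irr hX hgen hα hfib
  · obtain ⟨a, b, g2, g3, hab, hE, ha⟩ := h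
    exact hconv (Pool.Agent.N155.brody_of_elliptic hX hab hE ha hgen)
  · exact hconv (Pool.Agent.N155.hyp_of_sym hX hgen h)
  · obtain ⟨d, h, a, hd, hh, ha, hreg⟩ := h
    exact hconv (Pool.Agent.N155.hyp_of_prod hX hgen hd hh ha hreg)

/-- the positivity of the Kobayashi distance -/
theorem kob_of_brody {F : ι → MvPolynomial (Fin (n + 1)) ℂ} (hF : ∀ i, IsForm (F i))
    (hB : BrodyHyp (Cone F)) {p q : ℙ ℂ (Fin (n + 1) → ℂ)} (hp : p.rep ∈ Cone F)
    (hq : q.rep ∈ Cone F) (hpq : p ≠ q) : 0 < kobayashi (Cone F) p q := by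
  obtain ⟨⟨c, hc, hcb⟩, -⟩ := geo_of_brody hF hB
  refine lt_of_lt_of_le ?_ (hcb p q hp hq)
  rw [ENNReal.ofReal_pos]
  have h1 := projDist_pos hpq
  have h2 : 0 < min 1 (projDist p q) := lt_min one_pos h1
  positivity

end Pool.Agent.U647.IS
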