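import Pool.Agent.U647.IS.TF
import Pool.Agent.TH466.QG.Equiv

/-! Subvarieties of an irreducible surface. -/

set_option autoImplicit false

open MvPolynomial FF

namespace Pool.Agent.U647.IS

open Pool.Agent.N155 Pool.Agent.W602.GT Pool.Agent.TH143.GT
open Pool.Agent.W603.LV (canDeg)

variable {n : ℕ} {ι : Type} {F : ι → MvPolynomial (Fin (n + 1)) ℂ} {K : Type} [Field K]
  [Algebra ℂ K] {y : Fin (n + 1) → K}

/-- the points of an irreducible projective set over extensions of `ℂ` -/
theorem rel_point (hirr : Cone F ⊆ VarPts ℂ y) {L : Type} [Field L] [Algebra ℂ L]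
    {v : Fin (n + 1) → L} (hv : ∀ i, val v (F i) = 0) {G : MvPolynomial (Fin (n + 1)) ℂ}
    (hG : IsForm G) (h0 : val y G = 0) : val v G = 0 := by
  by_contra hne
  set I : Ideal (MvPolynomial (Fin (n + 1)) ℂ) := RingHom.ker (aeval v : _ →ₐ[ℂ] L) with hI
  have hp : I.IsPrime := RingHom.ker_isPrime _
  have h1 : G ∉ vanishingIdeal ℂ (zeroLocus ℂ I) := by
    rw [IsPrime.vanishingIdeal_zeroLocus]
    exact hne
  rw [mem_vanishingIdeal_iff] at h1
  push Not at h1
  obtain ⟨x, hx, hxG⟩ := h1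
  have hxI : ∀ P : MvPolynomial (Fin (n + 1)) ℂ, val v P = 0 → val x P = 0 := fun P hP =>
    (mem_zeroLocus_iff.1 hx) P hP
  have hxG' : val x G ≠ 0 := hxG
  by_cases hx0 : x = 0
  · obtain ⟨d, hd⟩ := hG
    rw [hx0, Pool.Agent.W602.GT.val_eval] at hxG'
    have hd0 : d = 0 := by
      by_contra hd0
      have h2 := eval_smul hd (0 : ℂ) (0 : Fin (n + 1) → ℂ)
      rw [smul_zero, zero_pow hd0, zero_mul] at h2
      exact hxG' h2
    subst hd0
    have h3 : G = C (coeff 0 G) := (totalDegree_eq_zero_iff_eq_C.1 (by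
      have := hd.totalDegree_le
      omega))
    rw [h3, val_C', map_eq_zero] at h0
    apply hxG'
    rw [h3, h0]
    simp
  · have hxF : x ∈ Cone F := ⟨hx0, fun i => hxI _ (hv i)⟩
    exact hxG' ((hirr hxF).2 G hG h0)

/-- **A subvariety of dimension at least two of an irreducible surface is the surface.** -/
theorem generic_of_two (hy : SubVar F K 2 y) (hirr : Cone F ⊆ VarPts ℂ y) {L : Type} [Field L]
    [Algebra ℂ L] {w : ℕ} {v : Fin (n + 1) → L} (hv : SubVar F L w v) (hw : 2 ≤ w)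
    {G : MvPolynomial (Fin (n + 1)) ℂ} (hG : IsForm G) : val y G = 0 ↔ val v G = 0 := by
  refine ⟨rel_point hirr hv.mem hG, fun h0 => ?_⟩
  obtain ⟨i0, hi0⟩ := Function.ne_iff.1 hv.ne
  have hi0' : v i0 ≠ 0 := hi0
  obtain ⟨s, hs⟩ := exists_coord_basis hv.gen hi0' hv.dim
  have hs2 : AlgebraicIndependent ℂ (fun b : Fin 2 => v (s (Fin.castLE hw b)) / v i0) :=
    hs.1.comp (Fin.castLE hw) (Fin.castLE_injective hw)
  exact spec_dense' (z := v) (i0 := i0) hi0' hy.dim (s := fun b => s (Fin.castLE hw b)) hs2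
    (fun G hG h => rel_point hirr hv.mem hG h) hG h0

/-- two generic points of the same variety have isomorphic fields -/
theorem equiv_of_generic (hgen : coords ℂ y = ⊤) {L : Type} [Field L] [Algebra ℂ L]
    {v : Fin (n + 1) → L} (hgen' : coords ℂ v = ⊤)
    (h : ∀ G : MvPolynomial (Fin (n + 1)) ℂ, IsForm G → (val y G = 0 ↔ val v G = 0)) :
    Nonempty (K ≃ₐ[ℂ] L) := by
  obtain ⟨e, he⟩ := exists_emb (z := v) (fr hgen) h
  refine ⟨AlgEquiv.ofBijective e ⟨e.toRingHom.injective, ?_⟩⟩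
  rw [← AlgHom.range_eq_top, eq_top_iff]
  have h1 : coords ℂ v ≤ e.fieldRange := by
    unfold coords
    rw [IntermediateField.adjoin_le_iff]
    rintro _ ⟨i, j, hj, rfl⟩
    have hyj : y j ≠ 0 := by
      intro h0
      have h2 := (h (X j) ⟨1, isHomogeneous_X _ _⟩).1 (by rw [val_X', h0])
      rw [val_X'] at h2
      exact hj h2
    refine ⟨y i / y j, ?_⟩
    have h3 := he 1 (X i) (X j) (isHomogeneous_X _ _) (isHomogeneous_X _ _) (by rwa [val_X'])
    rw [val_X', val_X', val_X', val_X'] at h3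
    exact h3
  intro z _
  have h2 : z ∈ coords ℂ v := by
    rw [hgen']
    exact IntermediateField.mem_top
  exact h1 h2

/-- the dimension of the proper closed subsets -/
theorem dim_le_one (hy : SubVar F K 2 y) (hirr : Cone F ⊆ VarPts ℂ y)
    {G : MvPolynomial (Fin (n + 1)) ℂ} (hG : IsForm G) (hne : val y G ≠ 0) {L : Type} [Field L]
    [Algebra ℂ L] {w : ℕ} {v : Fin (n + 1) → L} (hv : SubVar F L w v) (hvG : val v G = 0) :
    w ≤ 1 := by
  by_contra hw
  exact hne ((generic_of_two hy hirr hv (by omega) hG).2 hvG)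

/-- all subvarieties are of general type if the surface and the curves are -/
theorem allSub_of (hy : SubVar F K 2 y) (hirr : Cone F ⊆ VarPts ℂ y) (hgt : GeneralType ℂ K 2)
    (hcur : ∀ (L : Type) [Field L] [Algebra ℂ L] (v : Fin (n + 1) → L), SubVar F L 1 v →
      GeneralType ℂ L 1) : AllSubGeneral F := by
  intro L _ _ w v hw hv
  rcases hw.lt_or_eq with h1 | h1
  · obtain ⟨e⟩ := equiv_of_generic hy.gen hv.gen fun G hG => generic_of_two hy hirr hv h1 hG
    have h2 := Pool.Agent.TH466.QG.general_of_equiv e hgt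
    have h3 : w = 2 := by
      have h4 := hv.dim
      rw [h2.1] at h4
      exact_mod_cast h4.symm
    rw [h3]
    exact h2
  · subst h1
    exact hcur L v hv

end Pool.Agent.U647.IS
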