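import Pool.Agent.U647.IS.Gt1
import Pool.Agent.U647.IS.Sub
import Pool.Agent.U647.LT.Hyp

/-!
# Subvarieties of varieties with finitely many points
-/

set_option autoImplicit false

open MvPolynomial FF

namespace Pool.Agent.U647.IS

open Pool.Agent.W602.GT (IsForm val coords SubVar Cone GeneralType VarPts)
open Pool.Agent.W603.LV (canDeg)
open Pool.Agent.TH143.HE (IsPtP RatCurvesIn)
open Pool.Agent.Y719.LC
open Pool.Agent.N155 (AllSubGeneral SmoothSurface)
open Pool.Agent.U647.LT

variable {n : ℕ} {ι : Type} {k : Type} [Field k]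

/-- the function fields of curves -/
theorem isFF_of {E : Type} [Field E] [Algebra ℂ E] {v : Fin (n + 1) → E}
    (hgen : coords ℂ v = ⊤) (hdim : Algebra.trdeg ℂ E = 1) : IsFF ℂ E := by
  have hfs : {z : E | ∃ i j, v j ≠ 0 ∧ z = v i / v j}.Finite := by
    refine (Set.finite_range fun p : Fin (n + 1) × Fin (n + 1) => v p.1 / v p.2).subset ?_
    rintro _ ⟨i, j, _, rfl⟩
    exact ⟨(i, j), rfl⟩
  have hess : Algebra.EssFiniteType ℂ E := by
    rw [← IntermediateField.fg_top_iff, ← hgen]
    exact IntermediateField.fg_adjoin_of_finite hfs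
  exact ⟨hess, by rw [hdim]⟩

/-- **Curves in varieties without curves of genus at most one are of general type.** -/
theorem gt_of_low (σ : k →+* ℂ) {F : ι → MvPolynomial (Fin (n + 1)) k}
    (hF : ∀ i, IsForm (F i))
    (hR : RatCurvesIn σ (Ideal.span (Set.range F)) (Ideal.span (Set.range fun _ : Unit => 1)))
    (hE : EllIn σ (Ideal.span (Set.range F)) (Ideal.span (Set.range fun _ : Unit => 1)))
    (E : Type) [Field E] [Algebra ℂ E] (v : Fin (n + 1) → E) (hv : SubVar (Conj σ F) E 1 v) :
    GeneralType ℂ E 1 := by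
  have hdim : Algebra.trdeg ℂ E = 1 := by
    have := hv.dim
    exact_mod_cast this
  have hff : IsFF ℂ E := isFF_of hv.gen hdim
  apply gt_of_canDeg
  by_contra hneg
  rw [not_lt] at hneg
  let F' : Unit → MvPolynomial (Fin (n + 1)) k := fun _ => 1
  have hF' : ∀ i, IsForm (F' i) := fun _ => ⟨0, isHomogeneous_one _ _⟩
  have hmem : IsPtP ((algebraMap ℂ E).comp σ) (Ideal.span (Set.range F)) v := by
    rw [isPtP_span _ hF]
    intro i
    have h1 := hv.mem i
    unfold Pool.Agent.W602.GT.val Conj at h1
    rwa [aeval_def, eval₂_map] at h1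
  rcases low_case hR hE hneg hv.ne hmem with h1 | ⟨u, c, huc⟩
  · rw [isPtP_span _ hF'] at h1
    have h2 := h1 ()
    simp [F'] at h2
  · have hbot : coords ℂ v ≤ ⊥ := by
      unfold coords
      rw [IntermediateField.adjoin_le_iff]
      rintro _ ⟨i, j, hj, rfl⟩
      rw [SetLike.mem_coe, IntermediateField.mem_bot]
      have hu : u ≠ 0 := by
        rintro rfl
        apply hj
        rw [huc j, mul_zero]
      refine ⟨c i / c j, ?_⟩
      rw [huc i, huc j, map_div₀, mul_div_mul_right _ _ hu]
    have halg : Algebra.IsAlgebraic ℂ E := by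
      refine ⟨fun x => ?_⟩
      have h3 : x ∈ (⊥ : IntermediateField ℂ E) := hbot (by
        rw [hv.gen]
        exact IntermediateField.mem_top)
      obtain ⟨z, rfl⟩ := IntermediateField.mem_bot.1 h3
      exact isAlgebraic_algebraMap z
    have h4 := trdeg_eq_zero_iff.2 halg
    rw [hdim] at h4
    exact one_ne_zero h4

/-- **Curves in varieties with finitely many rational points are of general type.** -/
theorem gt_of_fin [NumberField k] (σ : k →+* ℂ) {F : ι → MvPolynomial (Fin (n + 1)) k}
    (hF : ∀ i, IsForm (F i))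
    (hfin : ∀ (L : Type) [Field L] [Algebra k L] [FiniteDimensional k L], (Points F L).Finite)
    (E : Type) [Field E] [Algebra ℂ E] (v : Fin (n + 1) → E) (hv : SubVar (Conj σ F) E 1 v) :
    GeneralType ℂ E 1 := by
  have hfp : FinPts (Ideal.span (Set.range F)) (Ideal.span (Set.range fun _ : Unit => 1)) :=
    finPts_of hF (fun _ => ⟨0, isHomogeneous_one _ _⟩)
      fun L _ _ _ => (hfin L).subset Set.sdiff_subset
  exact gt_of_low σ hF (rat_of_fin σ hfp) (ell_of_fin σ hfp) E v hv

/-- **All subvarieties are of general type** -/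
theorem allSub_of_fin [NumberField k] (σ : k →+* ℂ) {F : ι → MvPolynomial (Fin (n + 1)) k}
    (hF : ∀ i, IsForm (F i)) {K : Type} [Field K] [Algebra ℂ K] {y : Fin (n + 1) → K}
    (hX : SmoothSurface (Conj σ F) y) (hgt : GeneralType ℂ K 2)
    (hfin : ∀ (L : Type) [Field L] [Algebra k L] [FiniteDimensional k L], (Points F L).Finite) :
    AllSubGeneral (Conj σ F) :=
  allSub_of hX.sub hX.irred hgt fun E _ _ v hv => gt_of_fin σ hF hfin E v hv

end Pool.Agent.U647.IS
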