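import Pool.Agent.U647.IS.Fam
import Pool.Agent.N154.TB.Geo

/-! Charts of a projective surface at a point, and the comparison of two charts. -/

set_option autoImplicit false

open Filter Topology Set Metric MvPolynomial FF

namespace Pool.Agent.U647.IS

open Pool.Agent.N155 Pool.Agent.Y190.OP Pool.Agent.W602.GT Pool.Agent.TH143.GT

variable {n : ℕ}

/-- the affine coordinates -/
noncomputable def zet (i j k : Fin (n + 1)) (x : Fin (n + 1) → ℂ) : ℂ × ℂ := (x j / x i, x k / x i)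

theorem zet_smul (i j k : Fin (n + 1)) {c : ℂ} (hc : c ≠ 0) (x : Fin (n + 1) → ℂ) :
    zet i j k (c • x) = zet i j k x := by
  unfold zet
  simp only [Pi.smul_apply, smul_eq_mul]
  rw [mul_div_mul_left _ _ hc, mul_div_mul_left _ _ hc]

/-- a chart of the cone `X` at the point `x` -/
structure ChAt (X : Set (Fin (n + 1) → ℂ)) (x : Fin (n + 1) → ℂ) (i j k : Fin (n + 1))
    (U : Set (ℂ × ℂ)) (Ψ : ℂ × ℂ → Fin (n + 1) → ℂ) : Prop where
  par : Par X i j k U Ψ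
  ne : x i ≠ 0
  mem : zet i j k x ∈ U
  near : ∀ᶠ u in 𝓝 x, u ∈ X → u = u i • Ψ (zet i j k u)

variable {X : Set (Fin (n + 1) → ℂ)} {x : Fin (n + 1) → ℂ} {i j k : Fin (n + 1)}
  {U : Set (ℂ × ℂ)} {Ψ : ℂ × ℂ → Fin (n + 1) → ℂ}

theorem ChAt.self (C : ChAt X x i j k U Ψ) (hx : x ∈ X) : x = x i • Ψ (zet i j k x) :=
  C.near.self_of_nhds hx

theorem cont_zet (h : x i ≠ 0) : ContinuousAt (zet i j k) x := by
  unfold zet
  exact ((continuous_apply j).continuousAt.div (continuous_apply i).continuousAt h).prodMk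
    ((continuous_apply k).continuousAt.div (continuous_apply i).continuousAt h)

theorem ChAt.ev (C : ChAt X x i j k U Ψ) : ∀ᶠ u in 𝓝 x, ChAt X u i j k U Ψ := by
  filter_upwards [(continuous_apply i).continuousAt.eventually_ne C.ne,
    (cont_zet (j := j) (k := k) C.ne).eventually_mem (C.par.op.mem_nhds C.mem),
    C.near.eventually_nhds] with u h1 h2 h3
  exact ⟨C.par, h1, h2, h3⟩

theorem ChAt.smul (C : ChAt X x i j k U Ψ) (hX : ∀ x ∈ X, ∀ c : ℂ, c ≠ 0 → c • x ∈ X) {c : ℂ}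
    (hc : c ≠ 0) : ChAt X (c • x) i j k U Ψ := by
  refine ⟨C.par, mul_ne_zero hc C.ne, by rw [zet_smul i j k hc]; exact C.mem, ?_⟩
  have h1 : Tendsto (fun u : Fin (n + 1) → ℂ => c⁻¹ • u) (𝓝 (c • x)) (𝓝 x) := by
    have h2 : Continuous fun u : Fin (n + 1) → ℂ => c⁻¹ • u := continuous_const_smul _
    have h3 := h2.tendsto (c • x)
    rwa [smul_smul, inv_mul_cancel₀ hc, one_smul] at h3
  filter_upwards [h1.eventually C.near] with u hu huX
  have h2 := hu (hX u huX c⁻¹ (inv_ne_zero hc))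
  rw [zet_smul i j k (inv_ne_zero hc)] at h2
  have h3 := congrArg (fun v => c • v) h2
  simp only [smul_smul, mul_inv_cancel₀ hc, one_smul] at h3
  rw [Pi.smul_apply, smul_eq_mul, ← mul_assoc, mul_inv_cancel₀ hc, one_mul] at h3
  exact h3

theorem exists_chart (h : GraphAt X x) : ∃ i j k U Ψ, ChAt X x i j k U Ψ := by
  obtain ⟨i, j, k, U, Ψ, hi, hU, hmem, hΨ, hΨX, hnear⟩ := h
  obtain ⟨r, hr, hb⟩ := Metric.isOpen_iff.1 hU _ hmem
  exact ⟨i, j, k, ball (x j / x i, x k / x i) r, Ψ,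
    ⟨isOpen_ball, (convex_ball _ _).isPreconnected, ⟨_, mem_ball_self hr⟩, hΨ.mono hb,
      fun z hz => hΨX z (hb hz)⟩, hi, mem_ball_self hr, hnear⟩

/-- the derivative of the parametrisation in coordinates -/
theorem Par.fd (P : Par X i j k U Ψ) (d : ℂ × ℂ) (l : Fin (n + 1)) (z : U) :
    (dD P.op d (P.psi l)).1 z = fderiv ℂ Ψ z d l := by
  rw [dD_apply]
  have h1 : ext0 U (P.psi l).1 =ᶠ[𝓝 (z : ℂ × ℂ)] fun w => Ψ w l :=
    ext0_eq P.op (G := fun w => Ψ w l) (fun _ => rfl) z.2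
  rw [h1.fderiv_eq]
  have h2 : HasFDerivAt (fun w => Ψ w l)
      ((ContinuousLinearMap.proj (R := ℂ) (φ := fun _ : Fin (n + 1) => ℂ) l).comp
        (fderiv ℂ Ψ (z : ℂ × ℂ))) (z : ℂ × ℂ) :=
    (ContinuousLinearMap.proj (R := ℂ) (φ := fun _ : Fin (n + 1) => ℂ) l).hasFDerivAt.comp
      (z : ℂ × ℂ) (P.an z z.2).differentiableAt.hasFDerivAt
  rw [h2.fderiv]
  rfl

theorem Par.d1 (P : Par X i j k U Ψ) {z : ℂ × ℂ} (hz : z ∈ U) (d : ℂ × ℂ) :
    fderiv ℂ Ψ z d i = 0 ∧ fderiv ℂ Ψ z d j = d.1 ∧ fderiv ℂ Ψ z d k = d.2 := by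
  refine ⟨?_, ?_, ?_⟩
  · rw [← P.fd d i ⟨z, hz⟩, P.psii, Derivation.map_one_eq_zero]
    rfl
  · rw [← P.fd d j ⟨z, hz⟩, P.psij]
    rfl
  · rw [← P.fd d k ⟨z, hz⟩, P.psik]
    rfl

theorem fd_lin (z d : ℂ × ℂ) : fderiv ℂ Ψ z d =
    d.1 • fderiv ℂ Ψ z (1, 0) + d.2 • fderiv ℂ Ψ z (0, 1) := by
  rw [← map_smul, ← map_smul, ← map_add]
  congr 1
  ext <;> simp

/-- the Jacobian minor -/
noncomputable def jac (i' j' k' : Fin (n + 1)) (Ψ : ℂ × ℂ → Fin (n + 1) → ℂ) (z : ℂ × ℂ) : ℂ :=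
  det3 i' j' k' (Ψ z) (fderiv ℂ Ψ z (1, 0)) (fderiv ℂ Ψ z (0, 1))

theorem Par.jac_self (P : Par X i j k U Ψ) {z : ℂ × ℂ} (hz : z ∈ U) : jac i j k Ψ z = 1 := by
  unfold jac det3
  obtain ⟨h1, h2, h3⟩ := P.d1 hz (1, 0)
  obtain ⟨e1, e2, e3⟩ := P.d1 hz (0, 1)
  rw [h1, h2, h3, e1, e2, e3, (P.mem z hz).2.1]
  ring

theorem det3_tan (i' j' k' : Fin (n + 1)) (z : ℂ × ℂ) (c l m : ℂ) (a b : ℂ × ℂ) :
    det3 i' j' k' (c • Ψ z) (l • Ψ z + fderiv ℂ Ψ z a) (m • Ψ z + fderiv ℂ Ψ z b) =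
      c * (a.1 * b.2 - a.2 * b.1) * jac i' j' k' Ψ z := by
  rw [fd_lin z a, fd_lin z b]
  unfold jac det3
  simp only [Pi.add_apply, Pi.smul_apply, smul_eq_mul]
  ring

variable {ι : Type} {F : ι → MvPolynomial (Fin (n + 1)) ℂ} {K : Type} [Field K] [Algebra ℂ K]
  {y : Fin (n + 1) → K}

/-- the coefficients of a form in the charts -/
structure Coef (y : Fin (n + 1) → K) (M : ℕ)
    (q : Fin (n + 1) → Fin (n + 1) → Fin (n + 1) → K) : Prop where
  ne : ∀ i j k, y i ≠ 0 → IsTranscendenceBasis ℂ (![y j / y i, y k / y i] : Fin 2 → K) →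
    q i j k ≠ 0
  reg : ∀ i j k, y i ≠ 0 → IsTranscendenceBasis ℂ (![y j / y i, y k / y i] : Fin 2 → K) →
    ∀ E : Fin 2 → Derivation ℂ K K, Dual ![y j / y i, y k / y i] E →
    (∀ v : Place ℂ K, Divisorial 2 v → (∀ l, DerReg v (E l)) → v.Reg (q i j k))
  coc : ∀ i j k, y i ≠ 0 → IsTranscendenceBasis ℂ (![y j / y i, y k / y i] : Fin 2 → K) →
    ∀ E : Fin 2 → Derivation ℂ K K, Dual ![y j / y i, y k / y i] E →
    ∀ i' j' k', y i' ≠ 0 → IsTranscendenceBasis ℂ (![y j' / y i', y k' / y i'] : Fin 2 → K) →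
    q i j k * (y i' / y i) ^ (3 * M + 1) = q i' j' k' *
      (det3 i' j' k' (fun l => y l / y i) (fun l => E 0 (y l / y i))
        fun l => E 1 (y l / y i)) ^ M

/-- the coefficient as a holomorphic function -/
def IsCo (R : ∀ h : K, Frac y h) (h : K) (P : Par (Cone F) i j k U Ψ) (A : AnU P.op) : Prop :=
  A * aeval P.psi (R h).G0 = aeval P.psi (R h).G1

theorem exists_co {M : ℕ} {q : Fin (n + 1) → Fin (n + 1) → Fin (n + 1) → K} (hq : Coef y M q)
    (hy : SubVar F K 2 y) (hirr : Cone F ⊆ VarPts ℂ y) (R : ∀ h : K, Frac y h)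
    (P : Par (Cone F) i j k U Ψ) : ∃ A : AnU P.op, IsCo R (q i j k) P A := by
  obtain ⟨E, hE⟩ := exists_dual (P.basis hy hirr)
  exact P.quot hy hirr R hE (hq.reg i j k (P.yi hirr) (P.basis hy hirr) E hE)

/-- **Comparison of two charts.** -/
theorem compare {M : ℕ} {q : Fin (n + 1) → Fin (n + 1) → Fin (n + 1) → K} (hq : Coef y M q)
    (hy : SubVar F K 2 y) (hirr : Cone F ⊆ VarPts ℂ y) (R : ∀ h : K, Frac y h)
    (hX : ∀ x ∈ Cone F, ∀ c : ℂ, c ≠ 0 → c • x ∈ Cone F) (hx : x ∈ Cone F)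
    {i' j' k' : Fin (n + 1)} {U' : Set (ℂ × ℂ)} {Ψ' : ℂ × ℂ → Fin (n + 1) → ℂ}
    (C : ChAt (Cone F) x i j k U Ψ) (C' : ChAt (Cone F) x i' j' k' U' Ψ')
    {A : AnU C.par.op} (hA : IsCo R (q i j k) C.par A) {A' : AnU C'.par.op}
    (hA' : IsCo R (q i' j' k') C'.par A') :
    A.1 ⟨zet i j k x, C.mem⟩ * Ψ (zet i j k x) i' ^ (3 * M + 1) =
      A'.1 ⟨zet i' j' k' x, C'.mem⟩ * jac i' j' k' Ψ (zet i j k x) ^ M := by
  classical
  obtain ⟨E, hE⟩ := exists_dual (C.par.basis hy hirr)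
  have hco := C.par.cocycle hy hirr R hE (hq.coc i j k (C.par.yi hirr) (C.par.basis hy hirr) E hE
    i' j' k' (C'.par.yi hirr) (C'.par.basis hy hirr)) hA
  set z1 := zet i j k x with hz1
  have hc := C.self hx
  have hxi := C.ne
  have hΨ1 : Ψ z1 = (x i)⁻¹ • x := by
    conv_rhs => rw [hc]
    rw [smul_smul, Pi.smul_apply, smul_eq_mul, (C.par.mem z1 C.mem).2.1, mul_one,
      inv_mul_cancel₀ hxi, one_smul]
  have hC1 : ChAt (Cone F) (Ψ z1) i' j' k' U' Ψ' := by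
    rw [hΨ1]
    exact C'.smul hX (inv_ne_zero hxi)
  have hcont : ContinuousAt Ψ z1 := (C.par.an z1 C.mem).continuousAt
  -- the identity near `z1`
  have h1 : ∀ᶠ z in 𝓝 z1, (ext0 U A.1 z * Ψ z i' ^ (3 * M + 1) -
      ext0 U' A'.1 (zet i' j' k' (Ψ z)) * jac i' j' k' Ψ z ^ M) *
      ext0 U (aeval C.par.psi (R (q i' j' k')).G0 : AnU C.par.op).1 z = 0 := by
    filter_upwards [hcont.eventually hC1.ev, C.par.op.mem_nhds C.mem] with z hC hz
    have h2 := congrArg (fun g : AnU C.par.op => g.1 ⟨z, hz⟩) hco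
    have h3 : A.1 ⟨z, hz⟩ * Ψ z i' ^ (3 * M + 1) *
        (aeval C.par.psi (R (q i' j' k')).G0 : AnU C.par.op).1 ⟨z, hz⟩ =
        (aeval C.par.psi (R (q i' j' k')).G1 : AnU C.par.op).1 ⟨z, hz⟩ *
          (det3 i' j' k' C.par.psi (fun l => dD C.par.op (1, 0) (C.par.psi l))
            fun l => dD C.par.op (0, 1) (C.par.psi l)).1 ⟨z, hz⟩ ^ M := h2
    have h4 : (det3 i' j' k' C.par.psi (fun l => dD C.par.op (1, 0) (C.par.psi l))
            fun l => dD C.par.op (0, 1) (C.par.psi l)).1 ⟨z, hz⟩ = jac i' j' k' Ψ z := by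
      have h5 := map_det3 (evA C.par.op ⟨z, hz⟩) i' j' k' C.par.psi
        (fun l => dD C.par.op (1, 0) (C.par.psi l)) fun l => dD C.par.op (0, 1) (C.par.psi l)
      refine h5.trans ?_
      unfold jac
      congr 1
      · funext l
        exact C.par.fd (1, 0) l ⟨z, hz⟩
      · funext l
        exact C.par.fd (0, 1) l ⟨z, hz⟩
    rw [h4, C.par.hval, C.par.hval] at h3
    rw [ext0_apply _ hz, ext0_apply _ hz, ext0_apply _ hC.mem, C.par.hval]
    have hcz := hC.self (C.par.mem z hz).1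
    have hm : (Ψ z i') ^ (R (q i' j' k')).d ≠ 0 := pow_ne_zero _ hC.ne
    have hG : ∀ G : MvPolynomial (Fin (n + 1)) ℂ, G.IsHomogeneous (R (q i' j' k')).d →
        eval (Ψ z) G = Ψ z i' ^ (R (q i' j' k')).d * eval (Ψ' (zet i' j' k' (Ψ z))) G := by
      intro G hG
      conv_lhs => rw [hcz]
      rw [eval_smul hG]
    have h6 := congrArg (fun g : AnU C'.par.op => g.1 ⟨zet i' j' k' (Ψ z), hC.mem⟩) hA'
    have h7 : A'.1 ⟨zet i' j' k' (Ψ z), hC.mem⟩ *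
        (aeval C'.par.psi (R (q i' j' k')).G0 : AnU C'.par.op).1 ⟨_, hC.mem⟩ =
        (aeval C'.par.psi (R (q i' j' k')).G1 : AnU C'.par.op).1 ⟨_, hC.mem⟩ := h6
    rw [C'.par.hval, C'.par.hval] at h7
    have h8 : eval (Ψ z) (R (q i' j' k')).G1 =
        A'.1 ⟨zet i' j' k' (Ψ z), hC.mem⟩ * eval (Ψ z) (R (q i' j' k')).G0 := by
      rw [hG _ (R (q i' j' k')).h1, hG _ (R (q i' j' k')).h0, ← h7]
      ring
    rw [h8] at h3
    simp only at h3 ⊢
    linear_combination h3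
  have hcA : ContinuousAt (fun z => ext0 U A.1 z * Ψ z i' ^ (3 * M + 1) -
      ext0 U' A'.1 (zet i' j' k' (Ψ z)) * jac i' j' k' Ψ z ^ M) z1 := by
    have c1 : ContinuousAt (ext0 U A.1) z1 := (A.2 z1 C.mem).continuousAt
    have c2 : ContinuousAt (fun z => Ψ z i') z1 :=
      (continuous_apply i').continuousAt.comp hcont
    have c3 : ContinuousAt (fun z => ext0 U' A'.1 (zet i' j' k' (Ψ z))) z1 := by
      have c4 : ContinuousAt (ext0 U' A'.1) (zet i' j' k' (Ψ z1)) :=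
        (A'.2 _ hC1.mem).continuousAt
      have c5 : ContinuousAt (zet i' j' k') (Ψ z1) := cont_zet hC1.ne
      have c6 : ContinuousAt (fun z => zet i' j' k' (Ψ z)) z1 :=
        ContinuousAt.comp (g := zet i' j' k') (f := Ψ) c5 hcont
      exact ContinuousAt.comp (g := ext0 U' A'.1) (f := fun z => zet i' j' k' (Ψ z)) c4 c6
    have c7 : ∀ d : ℂ × ℂ, ∀ l, ContinuousAt (fun z => fderiv ℂ Ψ z d l) z1 := by
      intro d l
      have c8 : ContinuousAt (fderiv ℂ Ψ) z1 := (C.par.an z1 C.mem).fderiv.continuousAt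
      have c9 : ContinuousAt (fun z => fderiv ℂ Ψ z d) z1 := c8.clm_apply continuousAt_const
      exact (continuous_apply l).continuousAt.comp c9
    have c10 : ∀ l, ContinuousAt (fun z => Ψ z l) z1 := fun l =>
      (continuous_apply l).continuousAt.comp hcont
    have c11 : ContinuousAt (jac i' j' k' Ψ) z1 := by
      unfold jac det3
      exact (((c10 i').mul (((c7 (1, 0) j').mul (c7 (0, 1) k')).sub
        ((c7 (1, 0) k').mul (c7 (0, 1) j')))).sub ((c10 j').mul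
        (((c7 (1, 0) i').mul (c7 (0, 1) k')).sub ((c7 (1, 0) k').mul (c7 (0, 1) i'))))).add
        ((c10 k').mul (((c7 (1, 0) i').mul (c7 (0, 1) j')).sub
          ((c7 (1, 0) j').mul (c7 (0, 1) i'))))
    exact (c1.mul (c2.pow _)).sub (c3.mul (c11.pow _))
  by_contra hne
  have hg0n : (aeval C.par.psi (R (q i' j' k')).G0 : AnU C.par.op) ≠ 0 := fun h =>
    (R (q i' j' k')).hn ((C.par.rel hy hirr ⟨_, (R (q i' j' k')).h0⟩).2 h)
  have hval1 : ext0 U A.1 z1 * Ψ z1 i' ^ (3 * M + 1) -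
      ext0 U' A'.1 (zet i' j' k' (Ψ z1)) * jac i' j' k' Ψ z1 ^ M ≠ 0 := by
    rw [ext0_apply _ C.mem, hΨ1, zet_smul _ _ _ (inv_ne_zero hxi), ext0_apply _ C'.mem, ← hΨ1]
    exact sub_ne_zero.2 hne
  apply anU_dense C.par.op C.par.conn hg0n C.mem
  filter_upwards [h1, hcA.eventually_ne hval1] with z e1 e2
  exact (mul_eq_zero.1 e1).resolve_left e2

end Pool.Agent.U647.IS
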