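import Pool.Agent.U647.IS.Quot
import Pool.Agent.N155.Loc2

/-! The function field of a projective surface in the field of meromorphic functions of a chart. -/

set_option autoImplicit false

open Filter Topology Set Metric MvPolynomial FF

namespace Pool.Agent.U647.IS

open Pool.Agent.N155 Pool.Agent.Y190.OP Pool.Agent.W602.GT Pool.Agent.TH143.GT

section ring

variable {U : Set (ℂ × ℂ)} (hU : IsOpen U)

theorem anU_ext {f g : AnU hU} (h : ∀ z : U, f.1 z = g.1 z) : f = g := Subtype.ext (funext h)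

theorem isDomain_anU (hc : IsPreconnected U) (hne : U.Nonempty) : IsDomain (AnU hU) := by
  have hnt : Nontrivial (AnU hU) := ⟨0, 1, fun h => by
    obtain ⟨p, hp⟩ := hne
    have h1 : (0 : ℂ) = 1 := congrArg (fun g : AnU hU => g.1 ⟨p, hp⟩) h
    exact zero_ne_one h1⟩
  have hnz : NoZeroDivisors (AnU hU) := ⟨by
    intro a b hab
    by_cases ha : a = 0
    · exact Or.inl ha
    right
    obtain ⟨p, hp⟩ : ∃ p : U, a.1 p ≠ 0 := by
      by_contra hcon
      push Not at hcon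
      exact ha (anU_ext hU hcon)
    have h1 : ∀ᶠ z in 𝓝 (p : ℂ × ℂ), ext0 U b.1 z = 0 := by
      have h2 : ∀ᶠ z in 𝓝 (p : ℂ × ℂ), ext0 U a.1 z ≠ 0 :=
        (a.2 p p.2).continuousAt.eventually_ne (by rwa [ext0_apply _ p.2])
      filter_upwards [h2, hU.mem_nhds p.2] with z hz hzU
      rw [ext0_apply _ hzU] at hz ⊢
      have h3 : a.1 ⟨z, hzU⟩ * b.1 ⟨z, hzU⟩ = 0 :=
        congrArg (fun g : AnU hU => g.1 ⟨z, hzU⟩) hab
      exact (mul_eq_zero.1 h3).resolve_left hz
    have h4 := AnalyticOnNhd.eqOn_zero_of_preconnected_of_eventuallyEq_zero (f := ext0 U b.1)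
      (U := U) b.2 hc p.2 h1
    apply anU_ext hU
    intro z
    have h5 := h4 z.2
    rwa [ext0_apply _ z.2] at h5⟩
  exact NoZeroDivisors.to_isDomain _

/-- a nonzero function on a connected open set vanishes nowhere locally -/
theorem anU_dense (hc : IsPreconnected U) {g : AnU hU} (hg : g ≠ 0) {p : ℂ × ℂ} (hp : p ∈ U) :
    ¬ ∀ᶠ z in 𝓝 p, ext0 U g.1 z = 0 := by
  intro h
  have h4 := AnalyticOnNhd.eqOn_zero_of_preconnected_of_eventuallyEq_zero (f := ext0 U g.1)
    (U := U) g.2 hc hp h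
  apply hg
  apply anU_ext hU
  intro z
  have h5 := h4 z.2
  rwa [ext0_apply _ z.2] at h5

end ring

variable {n : ℕ}

/-- a holomorphic parametrisation of an open part of the cone over a surface, by the affine
coordinates `j`, `k` -/
structure Par (X : Set (Fin (n + 1) → ℂ)) (i j k : Fin (n + 1)) (U : Set (ℂ × ℂ))
    (Ψ : ℂ × ℂ → Fin (n + 1) → ℂ) : Prop where
  op : IsOpen U
  conn : IsPreconnected U
  ne : U.Nonempty
  an : AnalyticOnNhd ℂ Ψ U
  mem : ∀ z ∈ U, Ψ z ∈ X ∧ Ψ z i = 1 ∧ Ψ z j = z.1 ∧ Ψ z k = z.2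

variable {X : Set (Fin (n + 1) → ℂ)} {i j k : Fin (n + 1)} {U : Set (ℂ × ℂ)}
  {Ψ : ℂ × ℂ → Fin (n + 1) → ℂ}

/-- the coordinate functions -/
noncomputable def Par.psi (P : Par X i j k U Ψ) (l : Fin (n + 1)) : AnU P.op :=
  toA P.op (fun z => Ψ z l) fun z hz => (analyticAt_pi_iff.1 (P.an z hz)) l

theorem Par.psi_apply (P : Par X i j k U Ψ) (l : Fin (n + 1)) (z : U) :
    (P.psi l).1 z = Ψ z l := rfl

theorem Par.hval (P : Par X i j k U Ψ) (G : MvPolynomial (Fin (n + 1)) ℂ) (z : U) :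
    (aeval P.psi G : AnU P.op).1 z = eval (Ψ z) G := by
  have h1 := MvPolynomial.comp_aeval_apply (f := P.psi) (evA P.op z) G
  rw [← evA_apply, h1]
  have h2 : (fun l => evA P.op z (P.psi l)) = Ψ z := by
    funext l
    rfl
  rw [h2, aeval_eq_eval]

theorem Par.psii (P : Par X i j k U Ψ) : P.psi i = 1 := by
  apply Subtype.ext
  funext z
  exact (P.mem z z.2).2.1

theorem Par.psij (P : Par X i j k U Ψ) (d : ℂ × ℂ) :
    dD P.op d (P.psi j) = algebraMap ℂ (AnU P.op) d.1 := by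
  apply Subtype.ext
  funext z
  rw [dD_apply]
  have h1 : ext0 U (P.psi j).1 =ᶠ[𝓝 (z : ℂ × ℂ)] Prod.fst := by
    apply ext0_eq P.op (G := Prod.fst) _ z.2
    intro w
    exact (P.mem w w.2).2.2.1
  rw [h1.fderiv_eq, fderiv_fst]
  rfl

theorem Par.psik (P : Par X i j k U Ψ) (d : ℂ × ℂ) :
    dD P.op d (P.psi k) = algebraMap ℂ (AnU P.op) d.2 := by
  apply Subtype.ext
  funext z
  rw [dD_apply]
  have h1 : ext0 U (P.psi k).1 =ᶠ[𝓝 (z : ℂ × ℂ)] Prod.snd := by
    apply ext0_eq P.op (G := Prod.snd) _ z.2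
    intro w
    exact (P.mem w w.2).2.2.2
  rw [h1.fderiv_eq, fderiv_snd]
  rfl

theorem Par.tj (P : Par X i j k U Ψ) (p : U) (e d : ℂ × ℂ) :
    TT P.op p e d (P.psi j) = lin (p : ℂ × ℂ).1 e.1 d.1 := by
  rw [TT_lin P.op p e d (P.psij e) (P.psij d), P.psi_apply, (P.mem p p.2).2.2.1]

theorem Par.tk (P : Par X i j k U Ψ) (p : U) (e d : ℂ × ℂ) :
    TT P.op p e d (P.psi k) = lin (p : ℂ × ℂ).2 e.2 d.2 := by
  rw [TT_lin P.op p e d (P.psik e) (P.psik d), P.psi_apply, (P.mem p p.2).2.2.2]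

theorem Par.tjk (P : Par X i j k U Ψ) (p : U) (e d : ℂ × ℂ) :
    (fun b => TT P.op p e d (P.psi ((![j, k] : Fin 2 → Fin (n + 1)) b))) =
      fun b => lin ((![(p : ℂ × ℂ).1, (p : ℂ × ℂ).2] : Fin 2 → ℂ) b)
        ((![![e.1, d.1], ![e.2, d.2]] : Fin 2 → Fin 2 → ℂ) b 0)
        ((![![e.1, d.1], ![e.2, d.2]] : Fin 2 → Fin 2 → ℂ) b 1) := by
  funext b
  fin_cases b
  · exact P.tj p e d
  · exact P.tk p e d

/-- the coordinates are algebraically independent -/
theorem Par.indep (P : Par X i j k U Ψ) {Q : MvPolynomial (Fin 2) ℂ}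
    (h : (aeval P.psi (rename (![j, k] : Fin 2 → Fin (n + 1)) Q) : AnU P.op) = 0) : Q = 0 := by
  obtain ⟨p0, hp0⟩ := P.ne
  have h3 := congrArg (TT P.op ⟨p0, hp0⟩ (1, 0) (0, 1)) h
  rw [map_zero, MvPolynomial.comp_aeval_apply, aeval_rename] at h3
  have h4 : ((fun l => TT P.op ⟨p0, hp0⟩ (1, 0) (0, 1) (P.psi l)) ∘ (![j, k] : Fin 2 → Fin (n + 1)))
      = fun b => TT P.op ⟨p0, hp0⟩ (1, 0) (0, 1) (P.psi ((![j, k] : Fin 2 → Fin (n + 1)) b)) := rfl
  rw [h4, P.tjk] at h3
  exact lin_indep (by simp) Q h3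

variable {ι : Type} {F : ι → MvPolynomial (Fin (n + 1)) ℂ} {K : Type} [Field K] [Algebra ℂ K]
  {y : Fin (n + 1) → K}

theorem Par.yi (P : Par (Cone F) i j k U Ψ) (hirr : Cone F ⊆ VarPts ℂ y) : y i ≠ 0 := by
  obtain ⟨p0, hp0⟩ := P.ne
  intro h0
  have := (hirr (P.mem p0 hp0).1).2 (MvPolynomial.X i) ⟨1, isHomogeneous_X _ _⟩
    (by rw [val_X', h0])
  rw [val_X', (P.mem p0 hp0).2.1] at this
  exact one_ne_zero this

theorem Par.van (P : Par (Cone F) i j k U Ψ) (hirr : Cone F ⊆ VarPts ℂ y)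
    {G : MvPolynomial (Fin (n + 1)) ℂ} (hG : IsForm G) (h0 : val y G = 0) :
    (aeval P.psi G : AnU P.op) = 0 := by
  apply anU_ext
  intro z
  rw [P.hval]
  have h1 := (hirr (P.mem z z.2).1).2 G hG h0
  rwa [val_eval] at h1

theorem Par.basis (P : Par (Cone F) i j k U Ψ) (hy : SubVar F K 2 y)
    (hirr : Cone F ⊆ VarPts ℂ y) :
    IsTranscendenceBasis ℂ (![y j / y i, y k / y i] : Fin 2 → K) := by
  have hindK : AlgebraicIndependent ℂ (![y j / y i, y k / y i] : Fin 2 → K) := by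
    rw [algebraicIndependent_iff]
    intro Q hQ
    have h1 : aeval (fun l => y l / y i) (rename (![j, k] : Fin 2 → Fin (n + 1)) Q) = 0 := by
      rw [aeval_rename]
      have h2 : ((fun l => y l / y i) ∘ (![j, k] : Fin 2 → Fin (n + 1))) =
          (![y j / y i, y k / y i] : Fin 2 → K) := by
        funext b
        fin_cases b <;> rfl
      rw [h2]
      exact hQ
    apply P.indep
    apply anU_ext
    intro z
    rw [P.hval]
    have h3 := hirr (P.mem z z.2).1
    have h4 : Ψ z i ≠ 0 := by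
      rw [(P.mem z z.2).2.1]
      exact one_ne_zero
    have h5 := dehom (y' := Ψ z) (P.yi hirr) h4 (fun G hG h0 => h3.2 G hG h0) _ h1
    have h6 : (fun l => Ψ z l / Ψ z i) = Ψ z := by
      funext l
      rw [(P.mem z z.2).2.1, div_one]
    rw [h6, aeval_eq_eval] at h5
    exact h5
  apply hindK.isTranscendenceBasis_of_trdeg_le_of_finite
  rw [hy.dim, Cardinal.mk_fin]

theorem Par.rel (P : Par (Cone F) i j k U Ψ) (hy : SubVar F K 2 y)
    (hirr : Cone F ⊆ VarPts ℂ y) {G : MvPolynomial (Fin (n + 1)) ℂ} (hG : IsForm G) :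
    val y G = 0 ↔ (aeval P.psi G : AnU P.op) = 0 := by
  refine ⟨P.van hirr hG, fun h0 => ?_⟩
  have hdom := isDomain_anU P.op P.conn P.ne
  let M := FractionRing (AnU P.op)
  have hinj : Function.Injective (algebraMap (AnU P.op) M) := IsFractionRing.injective _ M
  have hvz : ∀ G : MvPolynomial (Fin (n + 1)) ℂ,
      val (fun l => algebraMap (AnU P.op) M (P.psi l)) G =
        algebraMap (AnU P.op) M (aeval P.psi G) := by
    intro G
    have h1 := MvPolynomial.comp_aeval_apply (f := P.psi)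
      (IsScalarTower.toAlgHom ℂ (AnU P.op) M) G
    exact h1.symm
  have hvan' : ∀ G : MvPolynomial (Fin (n + 1)) ℂ, IsForm G → val y G = 0 →
      val (fun l => algebraMap (AnU P.op) M (P.psi l)) G = 0 := by
    intro G hG h0
    rw [hvz, P.van hirr hG h0, map_zero]
  have hzi : algebraMap (AnU P.op) M (P.psi i) = 1 := by
    rw [P.psii, map_one]
  have hs : AlgebraicIndependent ℂ (fun b : Fin 2 =>
      (fun l => algebraMap (AnU P.op) M (P.psi l)) ((![j, k] : Fin 2 → Fin (n + 1)) b) /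
      (fun l => algebraMap (AnU P.op) M (P.psi l)) i) := by
    rw [algebraicIndependent_iff]
    intro Q hQ
    simp only [hzi, div_one] at hQ
    have h1 := MvPolynomial.comp_aeval_apply
      (f := fun b => P.psi ((![j, k] : Fin 2 → Fin (n + 1)) b))
      (IsScalarTower.toAlgHom ℂ (AnU P.op) M) Q
    have h2 : algebraMap (AnU P.op) M
        (aeval (fun b => P.psi ((![j, k] : Fin 2 → Fin (n + 1)) b)) Q) = 0 :=
      h1.trans hQ
    have h3 := (map_eq_zero_iff _ hinj).1 h2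
    apply P.indep
    rw [aeval_rename]
    exact h3
  refine spec_dense' (z := fun l => algebraMap (AnU P.op) M (P.psi l)) (i0 := i)
      (by rw [hzi]; exact one_ne_zero) hy.dim hs hvan' hG ?_
  rw [hvz, h0, map_zero]

end Pool.Agent.U647.IS
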