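import Pool.Agent.U647.IS.Emb

/-! Regular forms on a surface are holomorphic in the charts. -/

set_option autoImplicit false

open Filter Topology Set Metric MvPolynomial FF

namespace Pool.Agent.U647.IS

open Pool.Agent.N155 Pool.Agent.Y190.OP Pool.Agent.W602.GT Pool.Agent.TH143.GT

/-- the minor of the matrix with the rows `x`, `v`, `w` with the columns `i`, `j`, `k` -/
def det3 {A : Type} [CommRing A] {N : ℕ} (i j k : Fin N) (x v w : Fin N → A) : A :=
  x i * (v j * w k - v k * w j) - x j * (v i * w k - v k * w i) + x k * (v i * w j - v j * w i)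

theorem map_det3 {A B G : Type} [CommRing A] [CommRing B] [FunLike G A B] [RingHomClass G A B]
    (f : G) {N : ℕ} (i j k : Fin N) (x v w : Fin N → A) :
    f (det3 i j k x v w) = det3 i j k (fun l => f (x l)) (fun l => f (v l)) (fun l => f (w l)) := by
  unfold det3
  simp only [map_add, map_sub, map_mul]

variable {n : ℕ} {i j k : Fin (n + 1)} {U : Set (ℂ × ℂ)}
  {Ψ : ℂ × ℂ → Fin (n + 1) → ℂ} {ι : Type} {F : ι → MvPolynomial (Fin (n + 1)) ℂ} {K : Type}
  [Field K] [Algebra ℂ K] {y : Fin (n + 1) → K}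

/-- the pull-back of rational functions to the chart -/
theorem Par.emb (P : Par (Cone F) i j k U Ψ) (hy : SubVar F K 2 y)
    (hirr : Cone F ⊆ VarPts ℂ y) (R : ∀ h : K, Frac y h) [IsDomain (AnU P.op)] :
    ∃ e : K →ₐ[ℂ] FractionRing (AnU P.op), ∀ (d : ℕ) (H1 H0 : MvPolynomial (Fin (n + 1)) ℂ),
      H1.IsHomogeneous d → H0.IsHomogeneous d → val y H0 ≠ 0 →
      e (val y H1 / val y H0) = algebraMap (AnU P.op) _ (aeval P.psi H1) /
        algebraMap (AnU P.op) _ (aeval P.psi H0) := by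
  let M := FractionRing (AnU P.op)
  have hinj : Function.Injective (algebraMap (AnU P.op) M) := IsFractionRing.injective _ M
  have hvz : ∀ G : MvPolynomial (Fin (n + 1)) ℂ,
      val (fun l => algebraMap (AnU P.op) M (P.psi l)) G =
        algebraMap (AnU P.op) M (aeval P.psi G) := by
    intro G
    have h1 := MvPolynomial.comp_aeval_apply (f := P.psi)
      (IsScalarTower.toAlgHom ℂ (AnU P.op) M) G
    exact h1.symm
  obtain ⟨e, he⟩ := exists_emb (z := fun l => algebraMap (AnU P.op) M (P.psi l)) R (by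
    intro G hG
    rw [P.rel hy hirr hG, hvz, map_eq_zero_iff _ hinj])
  refine ⟨e, fun d H1 H0 h1 h0 hn => ?_⟩
  rw [he d H1 H0 h1 h0 hn, hvz, hvz]

theorem Par.emb_ratio (P : Par (Cone F) i j k U Ψ) (hirr : Cone F ⊆ VarPts ℂ y)
    [IsDomain (AnU P.op)] {e : K →ₐ[ℂ] FractionRing (AnU P.op)}
    (he : ∀ (d : ℕ) (H1 H0 : MvPolynomial (Fin (n + 1)) ℂ),
      H1.IsHomogeneous d → H0.IsHomogeneous d → val y H0 ≠ 0 →
      e (val y H1 / val y H0) = algebraMap (AnU P.op) _ (aeval P.psi H1) /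
        algebraMap (AnU P.op) _ (aeval P.psi H0)) (l : Fin (n + 1)) :
    e (y l / y i) = algebraMap (AnU P.op) _ (P.psi l) := by
  have h1 := he 1 (X l) (X i) (isHomogeneous_X _ _) (isHomogeneous_X _ _)
    (by rw [val_X']; exact P.yi hirr)
  rw [val_X', val_X', aeval_X, aeval_X, P.psii, map_one, div_one] at h1
  exact h1

/-- the coordinate directions -/
def dir : Fin 2 → ℂ × ℂ := ![(1, 0), (0, 1)]

/-- the pull-back commutes with the derivations -/
theorem Par.der (P : Par (Cone F) i j k U Ψ) (hirr : Cone F ⊆ VarPts ℂ y)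
    [IsDomain (AnU P.op)] {e : K →ₐ[ℂ] FractionRing (AnU P.op)}
    (he : ∀ l, e (y l / y i) = algebraMap (AnU P.op) _ (P.psi l))
    {E : Fin 2 → Derivation ℂ K K} (hE : Dual ![y j / y i, y k / y i] E) (a : Fin 2)
    (l : Fin (n + 1)) :
    e (E a (y l / y i)) = algebraMap (AnU P.op) _ (dD P.op (dir a) (P.psi l)) := by
  let M := FractionRing (AnU P.op)
  obtain ⟨D', hD'⟩ := exists_der_frac (M := M) (dD P.op (dir a))
  have h1 : IsDer e (fun f => D' (e f)) := by
    constructor
    · intro a b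
      simp only [map_add]
    · intro a b
      simp only [map_mul, Derivation.leibniz, smul_eq_mul]
    · intro c
      rw [e.commutes, Derivation.map_algebraMap]
  have h2 := h1.chain hE (y l / y i)
  have h3 : ∀ b : Fin 2, D' (e ((![y j / y i, y k / y i] : Fin 2 → K) b)) =
      if b = a then 1 else 0 := by
    intro b
    fin_cases b
    · change D' (e (y j / y i)) = _
      rw [he, hD', P.psij]
      fin_cases a
      · change algebraMap (AnU P.op) M (algebraMap ℂ (AnU P.op) (1 : ℂ)) = 1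
        rw [map_one, map_one]
      · change algebraMap (AnU P.op) M (algebraMap ℂ (AnU P.op) (0 : ℂ)) = 0
        rw [map_zero, map_zero]
    · change D' (e (y k / y i)) = _
      rw [he, hD', P.psik]
      fin_cases a
      · change algebraMap (AnU P.op) M (algebraMap ℂ (AnU P.op) (0 : ℂ)) = 0
        rw [map_zero, map_zero]
      · change algebraMap (AnU P.op) M (algebraMap ℂ (AnU P.op) (1 : ℂ)) = 1
        rw [map_one, map_one]
  simp only [h3] at h2
  rw [he, hD'] at h2
  rw [h2, Finset.sum_eq_single a]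
  · rw [if_pos rfl, one_mul]
  · intro b _ hb
    rw [if_neg hb, zero_mul]
  · intro ha
    exact absurd (Finset.mem_univ a) ha

/-- **The functions which are regular at the prime divisors are holomorphic in the chart.** -/
theorem Par.quot (P : Par (Cone F) i j k U Ψ) (hy : SubVar F K 2 y)
    (hirr : Cone F ⊆ VarPts ℂ y) (R : ∀ h : K, Frac y h)
    {E : Fin 2 → Derivation ℂ K K} (hE : Dual ![y j / y i, y k / y i] E) {q : K}
    (hq : ∀ v : Place ℂ K, Divisorial 2 v → (∀ l, DerReg v (E l)) → v.Reg q) :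
    ∃ A : AnU P.op, A * aeval P.psi (R q).G0 = aeval P.psi (R q).G1 := by
  classical
  set g1 : AnU P.op := aeval P.psi (R q).G1 with hg1
  set g0 : AnU P.op := aeval P.psi (R q).G0 with hg0
  have hg0n : g0 ≠ 0 := fun h => (R q).hn ((P.rel hy hirr ⟨_, (R q).h0⟩).2 h)
  let M := FractionRing PS2
  have hinj : Function.Injective (algebraMap PS2 M) := IsFractionRing.injective PS2 M
  have hvz : ∀ (p : U) (e d : ℂ × ℂ) (G : MvPolynomial (Fin (n + 1)) ℂ),
      val (fun l => algebraMap PS2 M (TT P.op p e d (P.psi l))) G =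
        algebraMap PS2 M (TT P.op p e d (aeval P.psi G)) := by
    intro p e d G
    have h1 := MvPolynomial.comp_aeval_apply (f := P.psi)
      ((IsScalarTower.toAlgHom ℂ PS2 M).comp (TT P.op p e d)) G
    exact h1.symm
  have hzi : ∀ (p : U) (e d : ℂ × ℂ), algebraMap PS2 M (TT P.op p e d (P.psi i)) = 1 := by
    intro p e d
    rw [P.psii, map_one, map_one]
  have hzrel : ∀ (p : U) (e d : ℂ × ℂ), e.1 * d.2 - d.1 * e.2 ≠ 0 →
      ∀ G : MvPolynomial (Fin (n + 1)) ℂ, IsForm G → (val y G = 0 ↔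
        val (fun l => algebraMap PS2 M (TT P.op p e d (P.psi l))) G = 0) := by
    intro p e d hed
    have hvan' : ∀ G : MvPolynomial (Fin (n + 1)) ℂ, IsForm G → val y G = 0 →
        val (fun l => algebraMap PS2 M (TT P.op p e d (P.psi l))) G = 0 := by
      intro G hG h0
      rw [hvz, P.van hirr hG h0, map_zero, map_zero]
    intro G hG
    refine ⟨hvan' G hG, fun h0 => ?_⟩
    have hs : AlgebraicIndependent ℂ (fun b : Fin 2 =>
        (fun l => algebraMap PS2 M (TT P.op p e d (P.psi l))) ((![j, k] : Fin 2 → Fin (n + 1)) b) /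
        (fun l => algebraMap PS2 M (TT P.op p e d (P.psi l))) i) := by
      rw [algebraicIndependent_iff]
      intro Q hQ
      simp only [hzi, div_one] at hQ
      have h1 := MvPolynomial.comp_aeval_apply
        (f := fun b => TT P.op p e d (P.psi ((![j, k] : Fin 2 → Fin (n + 1)) b)))
        (IsScalarTower.toAlgHom ℂ PS2 M) Q
      have h2 : algebraMap PS2 M
          (aeval (fun b => TT P.op p e d (P.psi ((![j, k] : Fin 2 → Fin (n + 1)) b))) Q) = 0 :=
        h1.trans hQ
      have h3 := (map_eq_zero_iff _ hinj).1 h2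
      rw [P.tjk] at h3
      exact lin_indep (by simpa using hed) Q h3
    exact spec_dense' (z := fun l => algebraMap PS2 M (TT P.op p e d (P.psi l))) (i0 := i)
      (by rw [hzi]; exact one_ne_zero) hy.dim hs hvan' hG h0
  -- the division of Taylor series
  have hdvd : ∀ (p : U) (e d : ℂ × ℂ), e.1 * d.2 - d.1 * e.2 ≠ 0 →
      TT P.op p e d g0 ∣ TT P.op p e d g1 := by
    intro p e d hed
    obtain ⟨emb, hemb⟩ := exists_emb (z := fun l => algebraMap PS2 M (TT P.op p e d (P.psi l))) R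
      (hzrel p e d hed)
    have hembx : ∀ l, emb (y l / y i) = algebraMap PS2 M (TT P.op p e d (P.psi l)) := by
      intro l
      have h1 := hemb 1 (X l) (X i) (isHomogeneous_X _ _) (isHomogeneous_X _ _)
        (by rw [val_X']; exact P.yi hirr)
      rw [val_X', val_X', val_X', val_X'] at h1
      rw [h1, hzi, div_one]
    obtain ⟨α, hα⟩ := formal_mem (M := M) emb hE
      (a := ![(p : ℂ × ℂ).1, (p : ℂ × ℂ).2]) (m := ![![e.1, d.1], ![e.2, d.2]])
      (by simpa using hed) (by
        intro l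
        fin_cases l
        · change emb (y j / y i) = algebraMap PS2 M (lin (p : ℂ × ℂ).1 e.1 d.1)
          rw [hembx, P.tj]
        · change emb (y k / y i) = algebraMap PS2 M (lin (p : ℂ × ℂ).2 e.2 d.2)
          rw [hembx, P.tk]) hq
    have h1 := hemb _ (R q).G1 (R q).G0 (R q).h1 (R q).h0 (R q).hn
    rw [← (R q).eq, hα, hvz, hvz] at h1
    have h2 : algebraMap PS2 M (TT P.op p e d (aeval P.psi (R q).G0)) ≠ 0 := by
      intro h3
      apply (R q).hn
      exact (hzrel p e d hed (R q).G0 ⟨_, (R q).h0⟩).2 (by rw [hvz, h3])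
    rw [eq_div_iff h2, ← map_mul] at h1
    exact ⟨α, by rw [mul_comm]; exact (hinj h1).symm⟩
  -- local quotients
  have hloc : ∀ p : U, ∃ Q : ℂ × ℂ → ℂ, AnalyticAt ℂ Q p ∧
      ∀ᶠ z in 𝓝 (p : ℂ × ℂ), Q z * ext0 U g0.1 z = ext0 U g1.1 z := by
    intro p
    obtain ⟨e, d, hed, hline⟩ := exists_dir' P.op p.2 (anU_dense P.op P.conn hg0n p.2)
    exact quot_an P.op p.2 hline fun p' hp' =>
      order_of_dvd P.op ⟨p', hp'⟩ e d (hdvd ⟨p', hp'⟩ e d hed)
  choose Q hQ1 hQ2 using hloc
  let A0 : ℂ × ℂ → ℂ := fun z => if h : z ∈ U then Q ⟨z, h⟩ z else 0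
  have hA0 : ∀ p : U, A0 =ᶠ[𝓝 (p : ℂ × ℂ)] Q p := by
    intro p
    have h1 := (hQ1 p).eventually_analyticAt
    filter_upwards [P.op.mem_nhds p.2, (hQ2 p).eventually_nhds, h1] with z hz h2 h3
    have h4 : A0 z = Q ⟨z, hz⟩ z := dif_pos hz
    rw [h4]
    -- the two quotients agree at `z`
    have h5 : (fun w => (Q ⟨z, hz⟩ w - Q p w) * ext0 U g0.1 w) =ᶠ[𝓝 z] fun _ => 0 := by
      filter_upwards [h2, hQ2 ⟨z, hz⟩] with w e1 e2
      rw [sub_mul, e1, e2, sub_self]
    by_contra hne
    have h6 : ∀ᶠ w in 𝓝 z, Q ⟨z, hz⟩ w - Q p w ≠ 0 :=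
      ((hQ1 ⟨z, hz⟩).continuousAt.sub h3.continuousAt).eventually_ne (sub_ne_zero.2 hne)
    apply anU_dense P.op P.conn hg0n hz
    filter_upwards [h5, h6] with w e1 e2
    exact (mul_eq_zero.1 e1).resolve_left e2
  refine ⟨toA P.op A0 fun z hz => (hQ1 ⟨z, hz⟩).congr (hA0 ⟨z, hz⟩).symm, ?_⟩
  apply anU_ext
  intro z
  have h1 := (hQ2 z).self_of_nhds
  have h2 := (hA0 z).self_of_nhds
  rw [ext0_apply _ z.2, ext0_apply _ z.2] at h1
  change A0 z * g0.1 z = g1.1 z
  rw [h2]
  exact h1

/-- **Change of coordinates.** -/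
theorem Par.cocycle (P : Par (Cone F) i j k U Ψ) (hy : SubVar F K 2 y)
    (hirr : Cone F ⊆ VarPts ℂ y) (R : ∀ h : K, Frac y h)
    {E : Fin 2 → Derivation ℂ K K} (hE : Dual ![y j / y i, y k / y i] E) {q q' : K}
    {i' j' k' : Fin (n + 1)} {M : ℕ}
    (hq : q * (y i' / y i) ^ (3 * M + 1) = q' *
      (det3 i' j' k' (fun l => y l / y i) (fun l => E 0 (y l / y i)) fun l => E 1 (y l / y i)) ^ M)
    {A : AnU P.op} (hA : A * aeval P.psi (R q).G0 = aeval P.psi (R q).G1) :
    A * P.psi i' ^ (3 * M + 1) * aeval P.psi (R q').G0 = aeval P.psi (R q').G1 *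
      (det3 i' j' k' P.psi (fun l => dD P.op (1, 0) (P.psi l))
        fun l => dD P.op (0, 1) (P.psi l)) ^ M := by
  have hdom := isDomain_anU P.op P.conn P.ne
  let M' := FractionRing (AnU P.op)
  have hinj : Function.Injective (algebraMap (AnU P.op) M') := IsFractionRing.injective _ M'
  obtain ⟨e, he⟩ := P.emb hy hirr R
  have her := fun l => P.emb_ratio hirr he l
  have h0 : ∀ q : K, algebraMap (AnU P.op) M' (aeval P.psi (R q).G0) ≠ 0 := by
    intro q h
    rw [map_eq_zero_iff _ hinj] at h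
    exact (R q).hn ((P.rel hy hirr ⟨_, (R q).h0⟩).2 h)
  have h1 : ∀ q : K, e q * algebraMap (AnU P.op) M' (aeval P.psi (R q).G0) =
      algebraMap (AnU P.op) M' (aeval P.psi (R q).G1) := by
    intro q
    have h2 := he _ (R q).G1 (R q).G0 (R q).h1 (R q).h0 (R q).hn
    rw [← (R q).eq] at h2
    rw [h2, div_mul_cancel₀ _ (h0 q)]
  have h2 : e q = algebraMap (AnU P.op) M' A := by
    have h3 := h1 q
    rw [← hA, map_mul] at h3
    exact mul_right_cancel₀ (h0 q) h3
  have h3 := congrArg e hq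
  rw [map_mul, map_mul, map_pow, map_pow, map_det3, h2] at h3
  simp only [her] at h3
  have h4 : ∀ l, e (E 0 (y l / y i)) = algebraMap (AnU P.op) M' (dD P.op (1, 0) (P.psi l)) :=
    fun l => P.der hirr her hE 0 l
  have h5 : ∀ l, e (E 1 (y l / y i)) = algebraMap (AnU P.op) M' (dD P.op (0, 1) (P.psi l)) :=
    fun l => P.der hirr her hE 1 l
  simp only [h4, h5] at h3
  rw [← map_det3] at h3
  apply hinj
  rw [map_mul, map_mul, map_mul, map_pow, map_pow, h3, ← h1 q']
  ring

end Pool.Agent.U647.IS
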