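import Pool.Agent.U647.IS.Cht
import Pool.Agent.N154.TB.Defs

/-! The holomorphic form with values in `O (-1)` on a surface of general type. -/

set_option autoImplicit false

open Filter Topology Set Metric MvPolynomial FF

namespace Pool.Agent.U647.IS

open Pool.Agent.N155 Pool.Agent.Y190.OP Pool.Agent.W602.GT Pool.Agent.TH143.GT

variable {n : ℕ}

/-- the coordinates which can be used near the point `x` -/
def trs (X : Set (Fin (n + 1) → ℂ)) (x : Fin (n + 1) → ℂ) :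
    Set (Fin (n + 1) × Fin (n + 1) × Fin (n + 1)) :=
  {t | ∃ U Ψ, ChAt X x t.1 t.2.1 t.2.2 U Ψ}

/-- an element of a nonempty set -/
noncomputable def pick {T : Type} [Inhabited T] (S : Set T) : T :=
  open scoped Classical in if h : S.Nonempty then h.some else default

theorem pick_mem {T : Type} [Inhabited T] {S : Set T} (h : S.Nonempty) : pick S ∈ S := by
  unfold pick
  rw [dif_pos h]
  exact h.some_mem

variable {ι : Type} {F : ι → MvPolynomial (Fin (n + 1)) ℂ} {K : Type} [Field K] [Algebra ℂ K]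
  {y : Fin (n + 1) → K}

/-- `s` is the value at `x` of the coefficient with respect to the coordinates `i`, `j`, `k` -/
def LocV (F : ι → MvPolynomial (Fin (n + 1)) ℂ) (R : ∀ h : K, Frac y h)
    (q : Fin (n + 1) → Fin (n + 1) → Fin (n + 1) → K) (i j k : Fin (n + 1))
    (x : Fin (n + 1) → ℂ) (s : ℂ) : Prop :=
  ∃ (U : Set (ℂ × ℂ)) (Ψ : ℂ × ℂ → Fin (n + 1) → ℂ) (C : ChAt (Cone F) x i j k U Ψ)
    (A : AnU C.par.op), IsCo R (q i j k) C.par A ∧ s = A.1 ⟨zet i j k x, C.mem⟩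

/-- the value at `x` of the coefficient with respect to the coordinates `i`, `j`, `k` -/
noncomputable def sv (F : ι → MvPolynomial (Fin (n + 1)) ℂ) (R : ∀ h : K, Frac y h)
    (q : Fin (n + 1) → Fin (n + 1) → Fin (n + 1) → K) (i j k : Fin (n + 1))
    (x : Fin (n + 1) → ℂ) : ℂ :=
  open scoped Classical in if h : ∃ s, LocV F R q i j k x s then h.choose else 0

/-- the form -/
noncomputable def eta (F : ι → MvPolynomial (Fin (n + 1)) ℂ) (R : ∀ h : K, Frac y h)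
    (q : Fin (n + 1) → Fin (n + 1) → Fin (n + 1) → K) (M : ℕ)
    (x v w : Fin (n + 1) → ℂ) : ℂ :=
  (x (pick (trs (Cone F) x)).1)⁻¹ * sv F R q (pick (trs (Cone F) x)).1
      (pick (trs (Cone F) x)).2.1 (pick (trs (Cone F) x)).2.2 x *
    (det3 (pick (trs (Cone F) x)).1 (pick (trs (Cone F) x)).2.1 (pick (trs (Cone F) x)).2.2 x v w /
      x (pick (trs (Cone F) x)).1 ^ 3) ^ M

variable {x : Fin (n + 1) → ℂ} {i j k : Fin (n + 1)} {U : Set (ℂ × ℂ)}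
  {Ψ : ℂ × ℂ → Fin (n + 1) → ℂ} {M : ℕ} {q : Fin (n + 1) → Fin (n + 1) → Fin (n + 1) → K}

theorem sv_eq (hq : Coef y M q) (hy : SubVar F K 2 y) (hirr : Cone F ⊆ VarPts ℂ y)
    (R : ∀ h : K, Frac y h) (hX : ∀ x ∈ Cone F, ∀ c : ℂ, c ≠ 0 → c • x ∈ Cone F)
    (hx : x ∈ Cone F) (C : ChAt (Cone F) x i j k U Ψ) {A : AnU C.par.op}
    (hA : IsCo R (q i j k) C.par A) : sv F R q i j k x = A.1 ⟨zet i j k x, C.mem⟩ := by
  have h1 : ∃ s, LocV F R q i j k x s := ⟨_, U, Ψ, C, A, hA, rfl⟩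
  have h2 : sv F R q i j k x = h1.choose := dif_pos h1
  obtain ⟨U', Ψ', C', A', hA', hs⟩ := h1.choose_spec
  rw [h2, hs]
  have h3 := compare hq hy hirr R hX hx C C' hA hA'
  rw [C.par.jac_self C.mem, (C.par.mem _ C.mem).2.1, one_pow, one_pow, mul_one, mul_one] at h3
  exact h3.symm

/-- **The value of the form in any chart.** -/
theorem eta_eq (hq : Coef y M q) (hy : SubVar F K 2 y) (hirr : Cone F ⊆ VarPts ℂ y)
    (R : ∀ h : K, Frac y h) (hX : ∀ x ∈ Cone F, ∀ c : ℂ, c ≠ 0 → c • x ∈ Cone F)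
    (hx : x ∈ Cone F) (C : ChAt (Cone F) x i j k U Ψ) {A : AnU C.par.op}
    (hA : IsCo R (q i j k) C.par A) {v w : Fin (n + 1) → ℂ}
    (hv : ∃ (l : ℂ) (a : ℂ × ℂ), v = l • Ψ (zet i j k x) + fderiv ℂ Ψ (zet i j k x) a)
    (hw : ∃ (l : ℂ) (a : ℂ × ℂ), w = l • Ψ (zet i j k x) + fderiv ℂ Ψ (zet i j k x) a) :
    eta F R q M x v w = (x i)⁻¹ * A.1 ⟨zet i j k x, C.mem⟩ *
      (det3 i j k x v w / x i ^ 3) ^ M := by
  have hne : (trs (Cone F) x).Nonempty := ⟨(i, j, k), U, Ψ, C⟩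
  have hmem := pick_mem hne
  unfold eta
  generalize pick (trs (Cone F) x) = t at hmem
  obtain ⟨i', j', k'⟩ := t
  obtain ⟨U', Ψ', C'⟩ := hmem
  simp only at C' ⊢
  obtain ⟨A', hA'⟩ := exists_co hq hy hirr R C'.par
  rw [sv_eq hq hy hirr R hX hx C' hA']
  have h3 := compare hq hy hirr R hX hx C C' hA hA'
  have hs := C.self hx
  set z1 := zet i j k x with hz1
  obtain ⟨l, a, rfl⟩ := hv
  obtain ⟨m, b, rfl⟩ := hw
  have hd1 : det3 i' j' k' x (l • Ψ z1 + fderiv ℂ Ψ z1 a) (m • Ψ z1 + fderiv ℂ Ψ z1 b) =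
      x i * (a.1 * b.2 - a.2 * b.1) * jac i' j' k' Ψ z1 := by
    conv_lhs => rw [hs]
    exact det3_tan i' j' k' z1 (x i) l m a b
  have hd2 : det3 i j k x (l • Ψ z1 + fderiv ℂ Ψ z1 a) (m • Ψ z1 + fderiv ℂ Ψ z1 b) =
      x i * (a.1 * b.2 - a.2 * b.1) := by
    conv_lhs => rw [hs]
    rw [det3_tan i j k z1 (x i) l m a b, C.par.jac_self C.mem, mul_one]
  rw [hd1, hd2]
  have hxi' : x i' = x i * Ψ z1 i' := by
    conv_lhs => rw [hs]
    rfl
  have hψ : Ψ z1 i' ≠ 0 := by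
    intro h0
    apply C'.ne
    rw [hxi', h0, mul_zero]
  have hxi := C.ne
  rw [hxi']
  generalize a.1 * b.2 - a.2 * b.1 = δ
  generalize jac i' j' k' Ψ z1 = J at h3 ⊢
  generalize Ψ z1 i' = ψ at h3 hψ ⊢
  generalize A'.1 ⟨zet i' j' k' x, C'.mem⟩ = α' at h3 ⊢
  generalize A.1 ⟨z1, C.mem⟩ = α at h3 ⊢
  have h4 : x i * δ * J / (x i * ψ) ^ 3 = (x i * δ / x i ^ 3) * (J / ψ ^ 3) := by
    field_simp
  rw [h4, mul_pow, div_pow J]
  have h5 : α' * J ^ M / ψ ^ (3 * M + 1) = α := by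
    rw [← h3, mul_div_assoc, div_self (pow_ne_zero _ hψ), mul_one]
  have h6 : ψ ^ (3 * M + 1) = ψ * (ψ ^ 3) ^ M := by
    rw [pow_succ, pow_mul]
    ring
  rw [← h5, h6]
  generalize (x i * δ / x i ^ 3) ^ M = T
  have h7 : (ψ ^ 3) ^ M ≠ 0 := pow_ne_zero _ (pow_ne_zero _ hψ)
  generalize (ψ ^ 3) ^ M = S at h7
  field_simp

variable {V : Type} [NormedAddCommGroup V] [NormedSpace ℂ V] {W : Set V}
  {Φ : V → Fin (n + 1) → ℂ}

/-- the tangent vectors in the chart -/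
theorem tangent (hW : IsOpen W) (hΦ : AnalyticOnNhd ℂ Φ W) (hΦX : ∀ z ∈ W, Φ z ∈ Cone F) {z0 : V}
    (hz0 : z0 ∈ W) (C : ChAt (Cone F) (Φ z0) i j k U Ψ) (d : V) :
    ∃ (l : ℂ) (a : ℂ × ℂ), fderiv ℂ Φ z0 d =
      l • Ψ (zet i j k (Φ z0)) + fderiv ℂ Ψ (zet i j k (Φ z0)) a := by
  have h1 : Φ =ᶠ[𝓝 z0] fun z => Φ z i • Ψ (zet i j k (Φ z)) := by
    filter_upwards [(hΦ z0 hz0).continuousAt.eventually C.near, hW.mem_nhds hz0] with z h2 h3
    exact h2 (hΦX z h3)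
  have hd : DifferentiableAt ℂ Φ z0 := (hΦ z0 hz0).differentiableAt
  have hdl : ∀ l, DifferentiableAt ℂ (fun z => Φ z l) z0 := fun l => differentiableAt_pi.1 hd l
  have hz : DifferentiableAt ℂ (fun z => zet i j k (Φ z)) z0 := by
    unfold zet
    simp only [div_eq_mul_inv]
    exact ((hdl j).mul ((hdl i).inv C.ne)).prodMk ((hdl k).mul ((hdl i).inv C.ne))
  have hΨd : DifferentiableAt ℂ Ψ (zet i j k (Φ z0)) := (C.par.an _ C.mem).differentiableAt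
  have h2 : HasFDerivAt (fun z => Ψ (zet i j k (Φ z)))
      ((fderiv ℂ Ψ (zet i j k (Φ z0))).comp (fderiv ℂ (fun z => zet i j k (Φ z)) z0)) z0 :=
    hΨd.hasFDerivAt.comp z0 hz.hasFDerivAt
  have h3 := (hdl i).hasFDerivAt.smul h2
  have h4 : fderiv ℂ Φ z0 = _ := h1.fderiv_eq.trans h3.fderiv
  refine ⟨fderiv ℂ (fun z => Φ z i) z0 d, Φ z0 i • fderiv ℂ (fun z => zet i j k (Φ z)) z0 d, ?_⟩
  rw [h4, map_smul]
  exact add_comm _ _

/-- **The form is holomorphic.** -/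
theorem eta_hol (hq : Coef y M q) (hy : SubVar F K 2 y) (hirr : Cone F ⊆ VarPts ℂ y)
    (R : ∀ h : K, Frac y h) (hX : ∀ x ∈ Cone F, ∀ c : ℂ, c ≠ 0 → c • x ∈ Cone F)
    (hs : ∀ x ∈ Cone F, GraphAt (Cone F) x)
    (hW : IsOpen W) (hΦ : AnalyticOnNhd ℂ Φ W) (hΦX : ∀ z ∈ W, Φ z ∈ Cone F) :
    AnalyticOnNhd ℂ (fun p : V × V × V =>
      eta F R q M (Φ p.1) (fderiv ℂ Φ p.1 p.2.1) (fderiv ℂ Φ p.1 p.2.2)) (W ×ˢ Set.univ) := by
  rintro ⟨z0, a0, b0⟩ ⟨hz0, -⟩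
  simp only at hz0
  obtain ⟨i, j, k, U, Ψ, C⟩ := exists_chart (hs _ (hΦX z0 hz0))
  obtain ⟨A, hA⟩ := exists_co hq hy hirr R C.par
  have h1 : (fun p : V × V × V => (Φ p.1 i)⁻¹ * ext0 U A.1 (zet i j k (Φ p.1)) *
      (det3 i j k (Φ p.1) (fderiv ℂ Φ p.1 p.2.1) (fderiv ℂ Φ p.1 p.2.2) *
        (Φ p.1 i ^ 3)⁻¹) ^ M) =ᶠ[𝓝 (z0, a0, b0)]
      fun p : V × V × V =>
        eta F R q M (Φ p.1) (fderiv ℂ Φ p.1 p.2.1) (fderiv ℂ Φ p.1 p.2.2) := by
    have h2 : ∀ᶠ p : V × V × V in 𝓝 (z0, a0, b0), p.1 ∈ W ∧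
        ChAt (Cone F) (Φ p.1) i j k U Ψ := by
      have h3 : Tendsto (fun p : V × V × V => p.1) (𝓝 (z0, a0, b0)) (𝓝 z0) :=
        continuous_fst.tendsto _
      exact (h3.eventually (hW.mem_nhds hz0)).and
        (h3.eventually ((hΦ z0 hz0).continuousAt.eventually C.ev))
    filter_upwards [h2] with p hp
    obtain ⟨hpW, Cp⟩ := hp
    have h4 := eta_eq hq hy hirr R hX (hΦX _ hpW) Cp (A := A) hA
      (tangent hW hΦ hΦX hpW Cp p.2.1) (tangent hW hΦ hΦX hpW Cp p.2.2)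
    rw [h4, ext0_apply _ Cp.mem, div_eq_mul_inv]
  refine AnalyticAt.congr ?_ h1
  have hfst : AnalyticAt ℂ (fun p : V × V × V => p.1) (z0, a0, b0) := analyticAt_fst
  have hΦ1 : AnalyticAt ℂ (fun p : V × V × V => Φ p.1) (z0, a0, b0) :=
    AnalyticAt.fun_comp (g := Φ) (f := fun p : V × V × V => p.1) (hΦ z0 hz0) hfst
  have hl : ∀ l, AnalyticAt ℂ (fun p : V × V × V => Φ p.1 l) (z0, a0, b0) := fun l =>
    (analyticAt_pi_iff.1 hΦ1) l
  have hf : AnalyticAt ℂ (fun p : V × V × V => fderiv ℂ Φ p.1) (z0, a0, b0) :=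
    AnalyticAt.fun_comp (g := fderiv ℂ Φ) (f := fun p : V × V × V => p.1) (hΦ z0 hz0).fderiv hfst
  have hbil : ∀ (s : V × V × V → V), AnalyticAt ℂ s (z0, a0, b0) →
      AnalyticAt ℂ (fun p : V × V × V => fderiv ℂ Φ p.1 (s p)) (z0, a0, b0) := by
    intro s hs
    have h5 : AnalyticAt ℂ (fun p : (V →L[ℂ] (Fin (n + 1) → ℂ)) × V => p.1 p.2)
        (fderiv ℂ Φ z0, s (z0, a0, b0)) :=
      ContinuousLinearMap.analyticAt_bilinear
        (ContinuousLinearMap.id ℂ (V →L[ℂ] (Fin (n + 1) → ℂ))) _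
    exact AnalyticAt.fun_comp (g := fun p : (V →L[ℂ] (Fin (n + 1) → ℂ)) × V => p.1 p.2)
      (f := fun p : V × V × V => (fderiv ℂ Φ p.1, s p)) h5 (hf.prod hs)
  have ha : AnalyticAt ℂ (fun p : V × V × V => p.2.1) (z0, a0, b0) :=
    ((ContinuousLinearMap.fst ℂ V V).comp (ContinuousLinearMap.snd ℂ V (V × V))).analyticAt _
  have hb : AnalyticAt ℂ (fun p : V × V × V => p.2.2) (z0, a0, b0) :=
    ((ContinuousLinearMap.snd ℂ V V).comp (ContinuousLinearMap.snd ℂ V (V × V))).analyticAt _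
  have hva := fun l => (analyticAt_pi_iff.1 (hbil _ ha)) l
  have hvb := fun l => (analyticAt_pi_iff.1 (hbil _ hb)) l
  have hdet : AnalyticAt ℂ (fun p : V × V × V =>
      det3 i j k (Φ p.1) (fderiv ℂ Φ p.1 p.2.1) (fderiv ℂ Φ p.1 p.2.2)) (z0, a0, b0) := by
    unfold det3
    exact (((hl i).mul (((hva j).mul (hvb k)).sub ((hva k).mul (hvb j)))).sub
      ((hl j).mul (((hva i).mul (hvb k)).sub ((hva k).mul (hvb i))))).add
      ((hl k).mul (((hva i).mul (hvb j)).sub ((hva j).mul (hvb i))))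
  have hz : AnalyticAt ℂ (fun p : V × V × V => zet i j k (Φ p.1)) (z0, a0, b0) := by
    unfold zet
    exact ((hl j).div (hl i) C.ne).prod ((hl k).div (hl i) C.ne)
  have hA1 : AnalyticAt ℂ (fun p : V × V × V => ext0 U A.1 (zet i j k (Φ p.1))) (z0, a0, b0) :=
    AnalyticAt.fun_comp (g := ext0 U A.1) (f := fun p : V × V × V => zet i j k (Φ p.1))
      (A.2 _ C.mem) hz
  have hni : Φ z0 i ^ 3 ≠ 0 := pow_ne_zero _ C.ne
  exact (((hl i).inv C.ne).mul hA1).mul ((hdet.mul (((hl i).pow 3).inv hni)).pow M)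

theorem eta_twist (hq : Coef y M q) (hy : SubVar F K 2 y) (hirr : Cone F ⊆ VarPts ℂ y)
    (R : ∀ h : K, Frac y h) (hX : ∀ x ∈ Cone F, ∀ c : ℂ, c ≠ 0 → c • x ∈ Cone F)
    (hs : ∀ x ∈ Cone F, GraphAt (Cone F) x) (hx : x ∈ Cone F) (v w : Fin (n + 1) → ℂ)
    (c e f : ℂ) (hc : c ≠ 0) :
    eta F R q M (c • x) (c • (v + e • x)) (c • (w + f • x)) = c⁻¹ * eta F R q M x v w := by
  have htrs : trs (Cone F) (c • x) = trs (Cone F) x := by
    ext t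
    constructor
    · rintro ⟨U, Ψ, C⟩
      refine ⟨U, Ψ, ?_⟩
      have h1 := C.smul hX (inv_ne_zero hc)
      rwa [smul_smul, inv_mul_cancel₀ hc, one_smul] at h1
    · rintro ⟨U, Ψ, C⟩
      exact ⟨U, Ψ, C.smul hX hc⟩
  obtain ⟨i, j, k, U, Ψ, C⟩ := exists_chart (hs _ hx)
  have hmem := pick_mem (S := trs (Cone F) x) ⟨(i, j, k), U, Ψ, C⟩
  unfold eta
  rw [htrs]
  generalize pick (trs (Cone F) x) = t at hmem
  obtain ⟨i', j', k'⟩ := t
  obtain ⟨U', Ψ', C'⟩ := hmem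
  simp only at C' ⊢
  obtain ⟨A', hA'⟩ := exists_co hq hy hirr R C'.par
  have C2 := C'.smul hX hc
  rw [sv_eq hq hy hirr R hX hx C' hA', sv_eq hq hy hirr R hX (hX x hx c hc) C2 (A := A') hA']
  have h1 : A'.1 ⟨zet i' j' k' (c • x), C2.mem⟩ = A'.1 ⟨zet i' j' k' x, C'.mem⟩ :=
    congrArg A'.1 (Subtype.ext (zet_smul i' j' k' hc x))
  rw [h1]
  have h2 : det3 i' j' k' (c • x) (c • (v + e • x)) (c • (w + f • x)) =
      c ^ 3 * det3 i' j' k' x v w := by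
    unfold det3
    simp only [Pi.add_apply, Pi.smul_apply, smul_eq_mul]
    ring
  rw [h2]
  have h3 := C'.ne
  have h4 : c ^ 3 * det3 i' j' k' x v w / (c • x) i' ^ 3 = det3 i' j' k' x v w / x i' ^ 3 := by
    rw [Pi.smul_apply, smul_eq_mul, mul_pow, mul_div_mul_left _ _ (pow_ne_zero 3 hc)]
  rw [h4, Pi.smul_apply, smul_eq_mul, mul_inv]
  ring

/-- the form does not vanish where the coefficients do not vanish -/
theorem eta_pos (hq : Coef y M q) (hy : SubVar F K 2 y) (hirr : Cone F ⊆ VarPts ℂ y)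
    (R : ∀ h : K, Frac y h) (hX : ∀ x ∈ Cone F, ∀ c : ℂ, c ≠ 0 → c • x ∈ Cone F)
    (hs : ∀ x ∈ Cone F, GraphAt (Cone F) x)
    (hW : IsOpen W) (hΦ : AnalyticOnNhd ℂ Φ W) (hΦX : ∀ z ∈ W, Φ z ∈ Cone F) {z0 : V}
    (hz0 : z0 ∈ W) (hG : ∀ i j k, y i ≠ 0 →
      IsTranscendenceBasis ℂ (![y j / y i, y k / y i] : Fin 2 → K) →
      eval (Φ z0) (R (q i j k)).G1 ≠ 0) (a b : V)
    (hind : LinearIndependent ℂ ![Φ z0, fderiv ℂ Φ z0 a, fderiv ℂ Φ z0 b]) :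
    eta F R q M (Φ z0) (fderiv ℂ Φ z0 a) (fderiv ℂ Φ z0 b) ≠ 0 := by
  have hx := hΦX z0 hz0
  obtain ⟨i, j, k, U, Ψ, C⟩ := exists_chart (hs _ hx)
  obtain ⟨A, hA⟩ := exists_co hq hy hirr R C.par
  have hta := tangent hW hΦ hΦX hz0 C a
  have htb := tangent hW hΦ hΦX hz0 C b
  rw [eta_eq hq hy hirr R hX hx C hA hta htb]
  have hself := C.self hx
  refine mul_ne_zero (mul_ne_zero (inv_ne_zero C.ne) ?_) (pow_ne_zero _ (div_ne_zero ?_
    (pow_ne_zero _ C.ne)))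
  · intro h0
    have h1 : (A * aeval C.par.psi (R (q i j k)).G0 : AnU C.par.op).1 ⟨_, C.mem⟩ =
        (aeval C.par.psi (R (q i j k)).G1 : AnU C.par.op).1 ⟨_, C.mem⟩ :=
      congrArg (fun g : AnU C.par.op => g.1 ⟨_, C.mem⟩) hA
    have h2 : A.1 ⟨_, C.mem⟩ * (aeval C.par.psi (R (q i j k)).G0 : AnU C.par.op).1 ⟨_, C.mem⟩ =
        (aeval C.par.psi (R (q i j k)).G1 : AnU C.par.op).1 ⟨_, C.mem⟩ := h1
    rw [h0, zero_mul, C.par.hval] at h2
    apply hG i j k (C.par.yi hirr) (C.par.basis hy hirr)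
    rw [hself, eval_smul (R (q i j k)).h1]
    simp only at h2
    rw [← h2, mul_zero]
  · obtain ⟨l, α, hα⟩ := hta
    obtain ⟨m, β, hβ⟩ := htb
    set z1 := zet i j k (Φ z0) with hz1
    have hd : det3 i j k (Φ z0) (fderiv ℂ Φ z0 a) (fderiv ℂ Φ z0 b) =
        Φ z0 i * (α.1 * β.2 - α.2 * β.1) := by
      rw [hα, hβ]
      conv_lhs => rw [hself]
      rw [det3_tan i j k z1 (Φ z0 i) l m α β, C.par.jac_self C.mem, mul_one]
    rw [hd]
    refine mul_ne_zero C.ne fun h0 => ?_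
    -- the three vectors are dependent
    rw [Fintype.linearIndependent_iff] at hind
    have hΨ1 : Ψ z1 = (Φ z0 i)⁻¹ • Φ z0 := by
      conv_rhs => rw [hself]
      rw [smul_smul, Pi.smul_apply, smul_eq_mul, (C.par.mem z1 C.mem).2.1, mul_one,
        inv_mul_cancel₀ C.ne, one_smul]
    rw [hΨ1] at hα hβ
    have hcoef : ∀ c1 c2 : ℂ, c1 * α.1 + c2 * β.1 = 0 → c1 * α.2 + c2 * β.2 = 0 →
        c1 = 0 ∧ c2 = 0 := by
      intro c1 c2 e1 e2
      have h5 : c1 • fderiv ℂ Ψ z1 α + c2 • fderiv ℂ Ψ z1 β = 0 := by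
        rw [← map_smul, ← map_smul, ← map_add]
        have : c1 • α + c2 • β = 0 := Prod.ext e1 e2
        rw [this, map_zero]
      have h6 := hind ![-(c1 * (l * (Φ z0 i)⁻¹) + c2 * (m * (Φ z0 i)⁻¹)), c1, c2] (by
        rw [Fin.sum_univ_three]
        simp only [Matrix.cons_val_zero, Matrix.cons_val_one, Matrix.cons_val_two,
          Matrix.head_cons, Matrix.tail_cons]
        rw [hα, hβ]
        have h7 : -(c1 * (l * (Φ z0 i)⁻¹) + c2 * (m * (Φ z0 i)⁻¹)) • Φ z0 +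
            c1 • (l • (Φ z0 i)⁻¹ • Φ z0 + fderiv ℂ Ψ z1 α) +
            c2 • (m • (Φ z0 i)⁻¹ • Φ z0 + fderiv ℂ Ψ z1 β) =
            c1 • fderiv ℂ Ψ z1 α + c2 • fderiv ℂ Ψ z1 β := by
          module
        rw [h7, h5])
      exact ⟨h6 1, h6 2⟩
    by_cases hα0 : α = 0
    · have := (hcoef 1 0 (by rw [hα0]; simp) (by rw [hα0]; simp)).1
      exact one_ne_zero this
    · by_cases hα1 : α.1 = 0
      · have hα2 : α.2 ≠ 0 := fun h => hα0 (Prod.ext hα1 h)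
        rw [hα1, zero_mul, zero_sub, neg_eq_zero] at h0
        have hβ1 : β.1 = 0 := (mul_eq_zero.1 h0).resolve_left hα2
        have h8 := hcoef β.2 (-α.2) (by rw [hα1, hβ1]; ring) (by ring)
        exact hα2 (neg_eq_zero.1 h8.2)
      · have h8 := hcoef β.1 (-α.1) (by ring) (by linear_combination -h0)
        exact hα1 (neg_eq_zero.1 h8.2)

end Pool.Agent.U647.IS
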