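import Pool.Agent.U647.IS.Kod
import Pool.Agent.U647.IS.Emb2

/-! The coefficients, in all affine charts, of a pluricanonical form with values in `O (-1)`. -/

set_option autoImplicit false

open FF MvPolynomial

namespace Pool.Agent.U647.IS

open Pool.Agent.W602.GT Pool.Agent.TH143.GT Pool.Agent.N155

variable {K : Type} [Field K] [Algebra ℂ K]

theorem exists_dual {w : ℕ} {x : Fin w → K} (hx : IsTranscendenceBasis ℂ x) :
    ∃ E : Fin w → Derivation ℂ K K, Dual x E := by
  choose E hE using fun a : Fin w => exists_der x hx (fun b => if a = b then (1 : K) else 0)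
  exact ⟨E, hx, hE⟩

theorem dual_unique {w : ℕ} {x : Fin w → K} {E E' : Fin w → Derivation ℂ K K} (h : Dual x E)
    (h' : Dual x E') : E = E' := by
  funext a
  have h1 := h.expand (E' a)
  simp only [h'.2] at h1
  rw [h1, Finset.sum_eq_single a]
  · rw [if_pos rfl, one_smul]
  · intro b _ hb
    rw [if_neg (Ne.symm hb), zero_smul]
  · intro ha
    exact absurd (Finset.mem_univ a) ha

theorem chainK {w : ℕ} {x : Fin w → K} {E : Fin w → Derivation ℂ K K} (h : Dual x E)
    (D : Derivation ℂ K K) (f : K) : D f = ∑ j, D (x j) * E j f := by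
  have := h.chain (L := K) D f
  simpa using this

/-- the Jacobian determinant of a change of coordinates -/
theorem det_chain {w : ℕ} {x x' : Fin w → K} {E : Fin w → Derivation ℂ K K}
    (h : Dual x E) (D : Fin w → Derivation ℂ K K) :
    (Matrix.of fun a b => D a (x' b)).det =
      (Matrix.of fun a b => D a (x b)).det * (Matrix.of fun a b => E a (x' b)).det := by
  rw [← Matrix.det_mul]
  congr 1
  ext a b
  rw [Matrix.mul_apply]
  exact chainK h (D a) (x' b)

theorem det_ne {w : ℕ} {x x' : Fin w → K} {E E' : Fin w → Derivation ℂ K K}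
    (h : Dual x E) (h' : Dual x' E') : (Matrix.of fun a b => E a (x' b)).det ≠ 0 := by
  have h1 := det_chain (x' := x) h' E
  have h2 : (Matrix.of fun a b => E a (x b)) = (1 : Matrix (Fin w) (Fin w) K) := by
    ext a b
    rw [Matrix.of_apply, h.2, Matrix.one_apply]
  rw [h2, Matrix.det_one] at h1
  exact left_ne_zero_of_mul (h1 ▸ one_ne_zero)

variable {n : ℕ} {y : Fin (n + 1) → K}

/-- the Jacobian determinant of the affine coordinates as a minor -/
theorem det_minor {i' j' k' i : Fin (n + 1)} (hi : y i ≠ 0) (hi' : y i' ≠ 0)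
    (E : Fin 2 → Derivation ℂ K K) :
    (Matrix.of fun a b => E a ((![y j' / y i', y k' / y i'] : Fin 2 → K) b)).det *
      (y i' / y i) ^ 3 =
    det3 i' j' k' (fun l => y l / y i) (fun l => E 0 (y l / y i)) (fun l => E 1 (y l / y i)) := by
  have hr : y i' / y i ≠ 0 := div_ne_zero hi' hi
  have h1 : ∀ l, y l / y i' = (y l / y i) / (y i' / y i) := by
    intro l
    rw [div_div_div_cancel_right₀ hi]
  have h2 : ∀ (a : Fin 2) (l : Fin (n + 1)), E a (y l / y i') * (y i' / y i) ^ 2 =
      E a (y l / y i) * (y i' / y i) - (y l / y i) * E a (y i' / y i) := by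
    intro a l
    rw [h1 l]
    generalize y l / y i = u
    generalize y i' / y i = v at hr ⊢
    rw [div_eq_mul_inv, (E a).leibniz, (E a).leibniz_inv]
    simp only [smul_eq_mul]
    field_simp
    ring
  rw [Matrix.det_fin_two]
  simp only [Matrix.of_apply, Matrix.cons_val_zero, Matrix.cons_val_one]
  have h3 : ∀ a b c d : K, (a * b - c * d) * (y i' / y i) ^ 3 * (y i' / y i) =
      (a * (y i' / y i) ^ 2) * (b * (y i' / y i) ^ 2) -
        (c * (y i' / y i) ^ 2) * (d * (y i' / y i) ^ 2) := by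
    intros
    ring
  apply mul_right_cancel₀ hr
  rw [h3, h2, h2, h2, h2]
  unfold det3
  ring

/-- **The family of coefficients.** -/
theorem exists_family (hgt : GeneralType ℂ K 2) (hy : y ≠ 0) :
    ∃ (M : ℕ) (q : Fin (n + 1) → Fin (n + 1) → Fin (n + 1) → K), ∀ i j k, y i ≠ 0 →
      IsTranscendenceBasis ℂ (![y j / y i, y k / y i] : Fin 2 → K) → q i j k ≠ 0 ∧
      ∀ E : Fin 2 → Derivation ℂ K K, Dual ![y j / y i, y k / y i] E →
        (∀ v : Place ℂ K, Divisorial 2 v → (∀ l, DerReg v (E l)) → v.Reg (q i j k)) ∧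
        ∀ i' j' k', y i' ≠ 0 →
          IsTranscendenceBasis ℂ (![y j' / y i', y k' / y i'] : Fin 2 → K) →
          q i j k * (y i' / y i) ^ (3 * M + 1) = q i' j' k' *
            (det3 i' j' k' (fun l => y l / y i) (fun l => E 0 (y l / y i))
              fun l => E 1 (y l / y i)) ^ M := by
  classical
  obtain ⟨x, hx⟩ : ∃ x : Fin 2 → K, IsTranscendenceBasis ℂ x := by
    obtain ⟨htr, N, hN, ω, hω, hreg, D, hD0, hDi⟩ := hgt
    refine ⟨_, hDi.isTranscendenceBasis_of_trdeg_le_of_finite ?_⟩
    rw [htr, Cardinal.mk_fin]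
  obtain ⟨Ex, hEx⟩ := exists_dual hx
  obtain ⟨l0, hl0⟩ : ∃ l, y l ≠ 0 := by
    by_contra hcon
    push Not at hcon
    exact hy (funext hcon)
  obtain ⟨M, B, hB, -, hBg⟩ := exists_den_fin hgt hEx (fun l : Fin (n + 1) => y l / y l0)
  let q : Fin (n + 1) → Fin (n + 1) → Fin (n + 1) → K := fun i j k =>
    if h : IsTranscendenceBasis ℂ (![y j / y i, y k / y i] : Fin 2 → K) then
      (Matrix.of fun a b => (exists_dual h).choose a (x b)).det ^ M * (B * (y i / y l0)) else 1
  have hq : ∀ i j k (E : Fin 2 → Derivation ℂ K K), Dual ![y j / y i, y k / y i] E →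
      q i j k = (Matrix.of fun a b => E a (x b)).det ^ M * (B * (y i / y l0)) := by
    intro i j k E hE
    have h1 : q i j k = (Matrix.of fun a b => (exists_dual hE.1).choose a (x b)).det ^ M *
        (B * (y i / y l0)) := dif_pos hE.1
    rw [h1, dual_unique (exists_dual hE.1).choose_spec hE]
  refine ⟨M, q, fun i j k hi ht => ?_⟩
  obtain ⟨E0, hE0⟩ := exists_dual ht
  refine ⟨?_, fun E hE => ⟨?_, fun i' j' k' hi' ht' => ?_⟩⟩
  · rw [hq i j k E0 hE0]
    exact mul_ne_zero (pow_ne_zero _ (det_ne hE0 hEx)) (mul_ne_zero hB (div_ne_zero hi hl0))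
  · intro v hv hreg
    rw [hq i j k E hE]
    exact hBg i v hv E hreg
  · obtain ⟨E', hE'⟩ := exists_dual ht'
    rw [hq i j k E hE, hq i' j' k' E' hE', ← det_minor hi hi' E,
      det_chain (x' := x) hE' E]
    have h1 : (B * (y i / y l0)) * (y i' / y i) = B * (y i' / y l0) := by
      field_simp
    rw [mul_pow, mul_pow, ← pow_mul, pow_succ, ← h1]
    ring

end Pool.Agent.U647.IS
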