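import Pool.Agent.TH143.GE.Form
import Pool.Agent.W602.GT.Defs

/-!
# Curves with positive canonical degree are of general type
-/

set_option autoImplicit false

namespace Pool.Agent.U647.IS

open FF Module
open Pool.Agent.W603.LV Pool.Agent.W602.GT

variable {E : Type} [Field E] [Algebra ℂ E] [IsFF ℂ E]

/-- **Curves of genus at least two are of general type.** -/
theorem gt_of_canDeg (hpos : 0 < canDeg ℂ E) : GeneralType ℂ E 1 := by
  classical
  have hder : der ℂ E ≠ 0 := der_ne
  set D0 := der ℂ E with hD0d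
  obtain ⟨γ, N', hγ, -⟩ := riemann ℂ E
  set N : ℕ := (γ + 2).toNat + 1 with hNd
  have hN : 2 ≤ finrank ℂ (LL (Pool.Agent.TH143.GE.DN D0 hder N)) := by
    have h1 := hγ (Pool.Agent.TH143.GE.DN D0 hder N)
    rw [Pool.Agent.TH143.GE.ddeg_DN] at h1
    unfold ell at h1
    have h2 : (γ + 2 : ℤ) ≤ ((γ + 2).toNat : ℤ) := Int.self_le_toNat _
    have h3 : (N : ℤ) ≤ (N : ℤ) * canDeg ℂ E := by
      have h4 : (0 : ℤ) ≤ (N : ℤ) := Int.natCast_nonneg _
      nlinarith
    have h5 : (2 : ℤ) ≤ (finrank ℂ (LL (Pool.Agent.TH143.GE.DN D0 hder N)) : ℤ) := by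
      have h6 : (N : ℤ) = ((γ + 2).toNat : ℤ) + 1 := by
        rw [hNd]
        push_cast
        rfl
      linarith
    exact_mod_cast h5
  obtain ⟨b, hli⟩ := exists_linearIndependent_of_le_finrank hN
  obtain ⟨g0, hg0d⟩ : ∃ g0 : E, g0 = b 0 := ⟨_, rfl⟩
  obtain ⟨g1, hg1d⟩ : ∃ g1 : E, g1 = b 1 := ⟨_, rfl⟩
  have hg0 : g0 ≠ 0 := by
    intro h
    apply hli.ne_zero 0
    apply Subtype.ext
    rw [← hg0d, h]
    rfl
  have htr : Transcendental ℂ (g1 / g0) := by
    intro halg
    have h1 : (minpoly ℂ (g1 / g0)).degree = 1 :=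
      IsAlgClosed.degree_eq_one_of_irreducible ℂ (minpoly.irreducible halg.isIntegral)
    obtain ⟨c, hc⟩ := minpoly.degree_eq_one_iff.1 h1
    rw [eq_div_iff hg0] at hc
    have h2 : (-c) • b 0 + (1 : ℂ) • b 1 = 0 := by
      apply Subtype.ext
      change (-c) • (b 0 : E) + (1 : ℂ) • (b 1 : E) = 0
      rw [← hg0d, ← hg1d, one_smul, neg_smul, Algebra.smul_def, hc, neg_add_cancel]
    have h3 := LinearIndependent.pair_iff.1 (by
      have e : b = ![b 0, b 1] := by
        funext i
        fin_cases i <;> rfl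
      rw [e] at hli
      exact hli) _ _ h2
    exact one_ne_zero h3.2
  have hge : ∀ (i : Fin 2) (P : Place ℂ E), (b i : E) = 0 ∨ N * vo P D0 ≤ P.ord (b i : E) := by
    intro i P
    rcases Pool.Agent.TH143.GE.mem_DN.1 (b i).2 with h | h
    · exact Or.inl h
    · exact Or.inr (h P)
  refine ⟨by rw [IsFF.trdeg (k := ℂ) (K := E)]; simp, N, by omega,
    fun j D => (b j : E) * ((D 0) (IsFF.exists_transcendental (k := ℂ) (K := E)).choose /
      D0 (IsFF.exists_transcendental (k := ℂ) (K := E)).choose) ^ N, ?_, ?_, fun _ => D0, ?_, ?_⟩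
  · intro j A D
    have h1 : (∑ j, A 0 j • D j) (IsFF.exists_transcendental (k := ℂ) (K := E)).choose =
        A 0 0 * (D 0) (IsFF.exists_transcendental (k := ℂ) (K := E)).choose := by
      rw [Fin.sum_univ_one]
      rfl
    simp only
    rw [h1, Matrix.det_fin_one]
    ring
  · intro P _ j D hD
    have hx0 : D0 (IsFF.exists_transcendental (k := ℂ) (K := E)).choose ≠ 0 :=
      der_ne_zero hder (IsFF.exists_transcendental (k := ℂ) (K := E)).choose_spec
    obtain ⟨r, hrD⟩ := der_smul (D' := D 0) hder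
    have h0 : (D 0) (IsFF.exists_transcendental (k := ℂ) (K := E)).choose /
        D0 (IsFF.exists_transcendental (k := ℂ) (K := E)).choose = r := by
      rw [hrD]
      change r * D0 _ / D0 _ = r
      exact mul_div_cancel_right₀ _ hx0
    simp only
    rw [h0]
    by_cases hr0 : r = 0
    · left
      rw [hr0, zero_pow (by omega), mul_zero]
    rcases hge j P with h2 | h2
    · left
      rw [h2, zero_mul]
    by_cases hb0 : (b j : E) = 0
    · left
      rw [hb0, zero_mul]
    right
    rw [P.ord_mul hb0 (pow_ne_zero _ hr0), P.ord_pow]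
    obtain ⟨π, hπ0, hπ⟩ := P.surj
    have h1 := hD 0 π (Or.inr (by omega))
    have h5 : D 0 π = r * D0 π := by rw [hrD]; rfl
    have h3 := der_pi_ne_zero hder P hπ
    rw [h5] at h1
    have h4 := (P.reg_iff (mul_ne_zero hr0 h3)).1 h1
    rw [P.ord_mul hr0 h3, vo_eq P hπ hder] at h4
    have h6 : (0 : ℤ) ≤ (N : ℤ) * (vo P D0 + P.ord r) :=
      mul_nonneg (Int.natCast_nonneg _) (by linarith)
    linarith
  · simp only
    have hx0 : D0 (IsFF.exists_transcendental (k := ℂ) (K := E)).choose ≠ 0 :=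
      der_ne_zero hder (IsFF.exists_transcendental (k := ℂ) (K := E)).choose_spec
    rw [div_self hx0, one_pow, mul_one, ← hg0d]
    exact hg0
  · rw [algebraicIndependent_unique_type_iff]
    have hx0 : D0 (IsFF.exists_transcendental (k := ℂ) (K := E)).choose ≠ 0 :=
      der_ne_zero hder (IsFF.exists_transcendental (k := ℂ) (K := E)).choose_spec
    have h1 : ((b (Fin.succ default) : E) * (D0 (IsFF.exists_transcendental (k := ℂ) (K := E)).choose /
      D0 (IsFF.exists_transcendental (k := ℂ) (K := E)).choose) ^ N) /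
      ((b 0 : E) * (D0 (IsFF.exists_transcendental (k := ℂ) (K := E)).choose /
      D0 (IsFF.exists_transcendental (k := ℂ) (K := E)).choose) ^ N) = g1 / g0 := by
      rw [div_self hx0, one_pow, mul_one, mul_one, hg0d, hg1d]
      rfl
    simp only
    rw [h1]
    exact htr

end Pool.Agent.U647.IS
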