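import Pool.Agent.TH143.GT.Pull
import Pool.Agent.N155.IR

/-! Pluricanonical forms which vanish on a hyperplane section, on varieties of general type. -/

set_option autoImplicit false

open FF MvPolynomial

namespace Pool.Agent.U647.IS

open Pool.Agent.W602.GT Pool.Agent.TH143.GT

variable {K : Type} [Field K] [Algebra ℂ K] {w : ℕ}

/-- the `N`-canonical form with the coefficient `b`, with respect to the coordinates `x`, is regular
at all prime divisors -/
def RegW (x : Fin w → K) (N : ℕ) (b : K) : Prop :=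
  ∀ P : Place ℂ K, Divisorial w P → ∀ D : Fin w → Derivation ℂ K K, (∀ i, DerReg P (D i)) →
    P.Reg ((Matrix.of fun i j => D i (x j)).det ^ N * b)

variable {x : Fin w → K}

theorem RegW.of_form {E : Fin w → Derivation ℂ K K} (hx : Dual x E) {N : ℕ}
    {ω : (Fin w → Derivation ℂ K K) → K} (hω : IsPluri N ω)
    (hreg : ∀ P : Place ℂ K, Divisorial w P → RegAt P ω) : RegW x N (ω E) := by
  intro P hP D hD
  have h1 := hω (Matrix.of fun i j => D i (x j)) E
  rw [← h1]
  have h2 : (fun i => ∑ j, (Matrix.of fun i j => D i (x j)) i j • E j) = D := by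
    funext i
    exact (hx.expand (D i)).symm
  rw [h2]
  exact hreg P hP D hD

theorem RegW.mul {N N' : ℕ} {b b' : K} (h : RegW x N b) (h' : RegW x N' b') :
    RegW x (N + N') (b * b') := by
  intro P hP D hD
  have := P.reg_mul (h P hP D hD) (h' P hP D hD)
  rw [pow_add]
  convert this using 1
  ring

theorem RegW.add {N : ℕ} {b b' : K} (h : RegW x N b) (h' : RegW x N b') : RegW x N (b + b') := by
  intro P hP D hD
  rw [mul_add]
  exact P.reg_add (h P hP D hD) (h' P hP D hD)

theorem RegW.zero (N : ℕ) : RegW x N 0 := by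
  intro P _ D _
  rw [mul_zero]
  exact P.reg_zero

theorem RegW.const (c : ℂ) : RegW x 0 (algebraMap ℂ K c) := by
  intro P _ D _
  rw [pow_zero, one_mul]
  exact P.reg_const c

theorem RegW.one : RegW x 0 (1 : K) := by
  have := RegW.const (x := x) 1
  rwa [map_one] at this

theorem RegW.smul {N : ℕ} {b : K} (h : RegW x N b) (c : ℂ) : RegW x N (algebraMap ℂ K c * b) := by
  have := (RegW.const (x := x) c).mul h
  rwa [zero_add] at this

theorem RegW.pow {N : ℕ} {b : K} (h : RegW x N b) (m : ℕ) : RegW x (N * m) (b ^ m) := by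
  induction m with
  | zero =>
    rw [pow_zero, mul_zero]
    exact RegW.one
  | succ m ih =>
    rw [pow_succ, Nat.mul_succ]
    exact ih.mul h

theorem RegW.sum {N : ℕ} {ι : Type} (s : Finset ι) (b : ι → K) (h : ∀ i ∈ s, RegW x N (b i)) :
    RegW x N (∑ i ∈ s, b i) := by
  classical
  induction s using Finset.induction_on with
  | empty => exact RegW.zero N
  | insert a s ha ih =>
    rw [Finset.sum_insert ha]
    exact (h a (Finset.mem_insert_self _ _)).add
      (ih fun i hi => h i (Finset.mem_insert_of_mem hi))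

theorem RegW.prod {ι : Type} (s : Finset ι) (N : ι → ℕ) (b : ι → K)
    (h : ∀ i ∈ s, RegW x (N i) (b i)) : RegW x (∑ i ∈ s, N i) (∏ i ∈ s, b i) := by
  classical
  induction s using Finset.induction_on with
  | empty => exact RegW.one
  | insert a s ha ih =>
    rw [Finset.sum_insert ha, Finset.prod_insert ha]
    exact (h a (Finset.mem_insert_self _ _)).mul
      (ih fun i hi => h i (Finset.mem_insert_of_mem hi))

/-- the leading coefficient of an equation clears the denominator -/
theorem RegW.lead {N e : ℕ} {C : ℕ → K} {g : K} (hC : ∀ j, RegW x N (C j))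
    (h0 : ∑ j ∈ Finset.range (e + 1), C j * g ^ j = 0) (he : C e ≠ 0) : RegW x N (C e * g) := by
  intro P hP D hD
  set u := (Matrix.of fun i j => D i (x j)).det ^ N with hu
  have hU : ∀ j, P.Reg (u * C j) := fun j => hC j P hP D hD
  by_cases hg0 : g = 0
  · rw [hg0, mul_zero, mul_zero]
    exact P.reg_zero
  rcases le_or_gt 0 (P.ord g) with hg | hg
  · have h1 := P.reg_mul (hU e) (Or.inr hg : P.Reg g)
    rwa [mul_assoc] at h1
  · have hgi : P.Reg g⁻¹ := Or.inr (by rw [P.ord_inv]; omega)
    have hgp : ∀ m : ℕ, P.Reg (g⁻¹ ^ m) := by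
      intro m
      induction m with
      | zero =>
        rw [pow_zero]
        exact P.reg_one
      | succ m ih =>
        rw [pow_succ]
        exact P.reg_mul ih hgi
    cases e with
    | zero =>
      rw [Finset.sum_range_one, pow_zero, mul_one] at h0
      exact absurd h0 he
    | succ e =>
      have h1 : u * (C (e + 1) * g) = -∑ j ∈ Finset.range (e + 1), (u * C j) * g⁻¹ ^ (e - j) := by
        rw [Finset.sum_range_succ] at h0
        have h2 : C (e + 1) * g ^ (e + 1) = -∑ j ∈ Finset.range (e + 1), C j * g ^ j := by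
          linear_combination h0
        have h3 : C (e + 1) * g = (C (e + 1) * g ^ (e + 1)) * (g⁻¹) ^ e := by
          rw [pow_succ]
          have : g ^ e * g⁻¹ ^ e = 1 := by rw [← mul_pow, mul_inv_cancel₀ hg0, one_pow]
          linear_combination (-(C (e + 1) * g)) * this
        rw [h3, h2, neg_mul, Finset.sum_mul, mul_neg, Finset.mul_sum]
        congr 1
        refine Finset.sum_congr rfl fun j hj => ?_
        have hj' : j ≤ e := Nat.lt_succ_iff.1 (Finset.mem_range.1 hj)
        have h4 : g⁻¹ ^ e = g⁻¹ ^ j * g⁻¹ ^ (e - j) := by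
          rw [← pow_add, Nat.add_sub_cancel' hj']
        have h5 : g ^ j * g⁻¹ ^ j = 1 := by rw [← mul_pow, mul_inv_cancel₀ hg0, one_pow]
        rw [h4]
        linear_combination (u * C j * g⁻¹ ^ (e - j)) * h5
      rw [h1]
      apply P.reg_neg
      have h6 : ∀ s : Finset ℕ, P.Reg (∑ j ∈ s, (u * C j) * g⁻¹ ^ (e - j)) := by
        classical
        intro s
        induction s using Finset.induction_on with
        | empty => exact P.reg_zero
        | insert a s ha ih =>
          rw [Finset.sum_insert ha]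
          exact P.reg_add (P.reg_mul (hU a) (hgp _)) ih
      exact h6 _

/-- homogenization of a polynomial in the ratios of regular forms -/
theorem RegW.homog {N r : ℕ} {b0 : K} {b : Fin r → K} (h0 : RegW x N b0)
    (hb : ∀ i, RegW x N (b i)) (hn : b0 ≠ 0) (c : MvPolynomial (Fin r) ℂ) {m : ℕ}
    (hm : c.totalDegree ≤ m) : RegW x (N * m) (b0 ^ m * aeval (fun i => b i / b0) c) := by
  rw [aeval_def, eval₂_eq', Finset.mul_sum]
  apply RegW.sum
  intro a ha
  have h1 : ∑ i, a i ≤ m := by
    have h2 := le_totalDegree ha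
    rw [Finsupp.sum_fintype _ _ (fun _ => rfl)] at h2
    exact h2.trans hm
  have h3 : b0 ^ m * (algebraMap ℂ K (coeff a c) * ∏ i, (b i / b0) ^ a i) =
      algebraMap ℂ K (coeff a c) * (b0 ^ (m - ∑ i, a i) * ∏ i, b i ^ a i) := by
    simp only [div_pow, Finset.prod_div_distrib]
    rw [Finset.prod_pow_eq_pow_sum]
    have h4 : b0 ^ m = b0 ^ (m - ∑ i, a i) * b0 ^ (∑ i, a i) := by
      rw [← pow_add, Nat.sub_add_cancel h1]
    have h5 : b0 ^ (∑ i, a i) ≠ 0 := pow_ne_zero _ hn
    rw [h4]
    field_simp
  rw [h3]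
  apply RegW.smul
  have h6 := (h0.pow (m - ∑ i, a i)).mul (RegW.prod (x := x) Finset.univ (fun i => N * a i)
    (fun i => b i ^ a i) fun i _ => (hb i).pow (a i))
  have h7 : N * (m - ∑ i, a i) + ∑ i, N * a i = N * m := by
    rw [← Finset.mul_sum, ← mul_add, Nat.sub_add_cancel h1]
  rwa [h7] at h6

/-- every function has a regular form as denominator -/
theorem exists_den (hgt : GeneralType ℂ K w) {E : Fin w → Derivation ℂ K K} (hx : Dual x E)
    (g : K) : ∃ (M : ℕ) (B : K), B ≠ 0 ∧ RegW x M B ∧ RegW x M (B * g) := by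
  obtain ⟨htr, N, hN, ω, hω, hreg, D, hD0, hDi⟩ := hgt
  -- the coefficients of the forms
  have hE : ∀ l, ω l D = (Matrix.of fun i j => D i (x j)).det ^ N * ω l E := by
    intro l
    have h1 := hω l (Matrix.of fun i j => D i (x j)) E
    rw [← h1]
    congr 1
    funext i
    exact hx.expand (D i)
  have hdet : (Matrix.of fun i j => D i (x j)).det ^ N ≠ 0 := by
    intro h
    apply hD0
    rw [hE, h, zero_mul]
  have hb0 : ω 0 E ≠ 0 := by
    intro h
    apply hD0
    rw [hE, h, mul_zero]
  have hrat : (fun i : Fin w => ω i.succ D / ω 0 D) = fun i : Fin w => ω i.succ E / ω 0 E := by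
    funext i
    rw [hE, hE, mul_div_mul_left _ _ hdet]
  rw [hrat] at hDi
  have hbas : IsTranscendenceBasis ℂ (fun i : Fin w => ω i.succ E / ω 0 E) := by
    apply hDi.isTranscendenceBasis_of_trdeg_le_of_finite
    rw [htr, Cardinal.mk_fin]
  have halg := hbas.isAlgebraic
  obtain ⟨p, hp, hpg⟩ := halg.isAlgebraic g
  have hsurj : ∀ a : Algebra.adjoin ℂ (Set.range fun i : Fin w => ω i.succ E / ω 0 E),
      ∃ c : MvPolynomial (Fin w) ℂ, aeval (fun i : Fin w => ω i.succ E / ω 0 E) c = (a : K) := by
    intro a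
    have h1 : (a : K) ∈ (aeval (R := ℂ) fun i : Fin w => ω i.succ E / ω 0 E).range := by
      rw [← Algebra.adjoin_range_eq_range_aeval]
      exact a.2
    exact h1
  choose cf hcf using hsurj
  set e := p.natDegree with he
  set m := (Finset.range (e + 1)).sup fun j => (cf (p.coeff j)).totalDegree with hm
  have hreg0 : ∀ l, RegW x N (ω l E) := fun l =>
    RegW.of_form hx (hω l) fun P hP => hreg P hP l
  let C : ℕ → K := fun j => if j ∈ Finset.range (e + 1) then ω 0 E ^ m *
    aeval (fun i : Fin w => ω i.succ E / ω 0 E) (cf (p.coeff j)) else 0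
  have hC : ∀ j, RegW x (N * m) (C j) := by
    intro j
    change RegW x (N * m) (if _ then _ else _)
    split_ifs with hj
    · exact RegW.homog (hreg0 0) (fun i => hreg0 i.succ) hb0 _
        (Finset.le_sup (f := fun j => (cf (p.coeff j)).totalDegree) hj)
    · exact RegW.zero _
  have hsum : ∑ j ∈ Finset.range (e + 1), C j * g ^ j = 0 := by
    have h1 : ∑ j ∈ Finset.range (e + 1), C j * g ^ j = ω 0 E ^ m * Polynomial.aeval g p := by
      rw [Polynomial.aeval_eq_sum_range, Finset.mul_sum]
      refine Finset.sum_congr rfl fun j hj => ?_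
      have h2 : C j = ω 0 E ^ m * (p.coeff j : K) := by
        change (if _ then _ else _) = _
        rw [if_pos hj, hcf]
      rw [h2, Algebra.smul_def, mul_assoc]
      rfl
    rw [h1, hpg, mul_zero]
  have hne : C e ≠ 0 := by
    have h2 : C e = ω 0 E ^ m * (p.coeff e : K) := by
      change (if _ then _ else _) = _
      rw [if_pos (Finset.self_mem_range_succ e), hcf]
    rw [h2]
    apply mul_ne_zero (pow_ne_zero _ hb0)
    intro h3
    have h4 : p.coeff e = 0 := Subtype.ext h3
    exact hp (Polynomial.leadingCoeff_eq_zero.1 h4)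
  exact ⟨N * m, C e, hne, hC e, RegW.lead hC hsum hne⟩

/-- **A regular pluricanonical form which vanishes on the divisor of poles of given functions.** -/
theorem exists_den_fin (hgt : GeneralType ℂ K w) {E : Fin w → Derivation ℂ K K} (hx : Dual x E)
    {r : ℕ} (g : Fin r → K) :
    ∃ (M : ℕ) (B : K), B ≠ 0 ∧ RegW x M B ∧ ∀ l, RegW x M (B * g l) := by
  choose M B hB h1 h2 using fun l => exists_den hgt hx (g l)
  refine ⟨∑ l, M l, ∏ l, B l, Finset.prod_ne_zero_iff.2 fun l _ => hB l,
    RegW.prod _ _ _ fun l _ => h1 l, fun l => ?_⟩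
  have h3 : (∏ l, B l) * g l = (B l * g l) * ∏ j ∈ Finset.univ.erase l, B j := by
    rw [← Finset.mul_prod_erase Finset.univ B (Finset.mem_univ l)]
    ring
  have h4 : ∑ l, M l = M l + ∑ j ∈ Finset.univ.erase l, M j :=
    (Finset.add_sum_erase Finset.univ M (Finset.mem_univ l)).symm
  rw [h3, h4]
  exact (h2 l).mul (RegW.prod _ _ _ fun j _ => h1 j)

end Pool.Agent.U647.IS
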