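import Pool.Agent.N155.Har
import Pool.Agent.Helper417.Mer.HartogsExt
import Pool.Agent.Q93.MC.Osg

/-! Quotients of analytic functions in two variables which extend to analytic functions. -/

set_option autoImplicit false

open Filter Topology Set Metric

namespace Pool.Agent.U647.IS

open Pool.Agent.N155

/-- Osgood's lemma for functions on finite-dimensional spaces -/
theorem analytic_of_diff {V : Type} [NormedAddCommGroup V] [NormedSpace ℂ V]
    [FiniteDimensional ℂ V] {h : V → ℂ} {s : Set V} (hs : IsOpen s) (hd : DifferentiableOn ℂ h s)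
    {z : V} (hz : z ∈ s) : AnalyticAt ℂ h z := by
  let A : V ≃L[ℂ] (Fin (Module.finrank ℂ V) → ℂ) :=
    ContinuousLinearEquiv.ofFinrankEq (by simp)
  have hopen : IsOpen (A.symm ⁻¹' s) := hs.preimage A.symm.continuous
  have hmem : A z ∈ A.symm ⁻¹' s := by simpa using hz
  obtain ⟨R, hR, hball⟩ := Metric.isOpen_iff.mp hopen (A z) hmem
  have h1 : AnalyticAt ℂ (fun w => h (A.symm w)) (A z) := by
    refine Pool.Agent.Q93.MC.analyticAt_of_differentiable _ (A z) (R / 2) (by positivity) _ ?_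
    intro w hw
    have hw' : w ∈ A.symm ⁻¹' s := by
      apply hball
      rw [mem_ball, dist_pi_lt_iff hR]
      intro j
      have := hw j
      rw [mem_closedBall] at this
      linarith
    have h2 : DifferentiableAt ℂ h (A.symm w) := hd.differentiableAt (hs.mem_nhds hw')
    exact h2.comp w A.symm.differentiableAt
  have h6 : AnalyticAt ℂ (fun v => h (A.symm (A v))) z :=
    AnalyticAt.fun_comp (g := fun w => h (A.symm w)) (f := fun v => A v) h1 (A.analyticAt z)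
  simpa using h6

/-- the quotient of two analytic functions on a disc -/
theorem disc_quot {f0 f1 : ℂ → ℂ} {r m : ℝ} (hr : 0 < r) (hm : 0 < m)
    (h0 : ∀ t ∈ closedBall (0 : ℂ) r, AnalyticAt ℂ f0 t)
    (h1 : ∀ t ∈ closedBall (0 : ℂ) r, AnalyticAt ℂ f1 t)
    (hs0 : ∀ t ∈ sphere (0 : ℂ) r, m ≤ ‖f0 t‖)
    (hord : ∀ t ∈ closedBall (0 : ℂ) r, analyticOrderAt f0 t ≤ analyticOrderAt f1 t) :
    ∃ h : ℂ → ℂ, (∀ t ∈ closedBall (0 : ℂ) r, AnalyticAt ℂ h t) ∧
      ∀ t ∈ closedBall (0 : ℂ) r, h t * f0 t = f1 t := by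
  -- the denominator is nowhere locally zero
  have hrs : (r : ℂ) ∈ sphere (0 : ℂ) r := by
    rw [mem_sphere_zero_iff_norm, Complex.norm_real, Real.norm_of_nonneg hr.le]
  have hnz : ∀ t ∈ closedBall (0 : ℂ) r, ∀ᶠ s in 𝓝[≠] t, f0 s ≠ 0 := by
    intro t ht
    refine ((h0 t ht).eventually_eq_zero_or_eventually_ne_zero).resolve_left fun h2 => ?_
    have h3 := AnalyticOnNhd.eqOn_zero_of_preconnected_of_eventuallyEq_zero (f := f0)
      (U := closedBall (0 : ℂ) r) h0 (convex_closedBall _ _).isPreconnected ht h2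
    have h4 := h3 (sphere_subset_closedBall hrs)
    have h5 := hs0 _ hrs
    rw [h4, Pi.zero_apply, norm_zero] at h5
    linarith
  have hquot : ∀ t ∈ closedBall (0 : ℂ) r, ∃ H : ℂ → ℂ, AnalyticAt ℂ H t ∧
      (f1 / f0) =ᶠ[𝓝[≠] t] H := by
    intro t ht
    have hne : analyticOrderAt f0 t ≠ ⊤ := by
      intro h2
      rw [analyticOrderAt_eq_top] at h2
      obtain ⟨s, hs1, hs2⟩ := ((hnz t ht).and (h2.filter_mono nhdsWithin_le_nhds)).exists
      exact hs1 hs2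
    obtain ⟨N, hN⟩ := ENat.ne_top_iff_exists.1 hne
    obtain ⟨g0, hg0, hg0n, hg0e⟩ := ((h0 t ht).analyticOrderAt_eq_natCast).1 hN.symm
    have hle : (N : ℕ∞) ≤ analyticOrderAt f1 t := by
      rw [hN]
      exact hord t ht
    obtain ⟨g1, hg1, hg1e⟩ := (natCast_le_analyticOrderAt (h1 t ht)).1 hle
    refine ⟨g1 / g0, hg1.div hg0 hg0n, ?_⟩
    filter_upwards [hg0e.filter_mono nhdsWithin_le_nhds, hg1e.filter_mono nhdsWithin_le_nhds,
      self_mem_nhdsWithin] with s h2 h3 h4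
    have h5 : (s - t) ^ N ≠ 0 := pow_ne_zero _ (sub_ne_zero.2 h4)
    rw [Pi.div_apply, Pi.div_apply, h2, h3, smul_eq_mul, smul_eq_mul, mul_div_mul_left _ _ h5]
  have hmer : MeromorphicOn (f1 / f0) (closedBall (0 : ℂ) r) := fun t ht =>
    (h1 t ht).meromorphicAt.div (h0 t ht).meromorphicAt
  set h := toMeromorphicNFOn (f1 / f0) (closedBall (0 : ℂ) r) with hh
  have hhan : ∀ t ∈ closedBall (0 : ℂ) r, AnalyticAt ℂ h t := by
    intro t ht
    have h2 : MeromorphicNFAt h t := meromorphicNFOn_toMeromorphicNFOn (f1 / f0) _ ht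
    rw [← h2.meromorphicOrderAt_nonneg_iff_analyticAt]
    obtain ⟨H, hH, hHe⟩ := hquot t ht
    have h3 : h =ᶠ[𝓝[≠] t] H :=
      (hmer.toMeromorphicNFOn_eq_self_on_nhdsNE ht).trans hHe
    rw [meromorphicOrderAt_congr h3]
    exact hH.meromorphicOrderAt_nonneg
  refine ⟨h, hhan, fun t ht => ?_⟩
  have h3 : (fun s => h s * f0 s) =ᶠ[𝓝[≠] t] f1 := by
    filter_upwards [hmer.toMeromorphicNFOn_eq_self_on_nhdsNE ht, hnz t ht] with s h4 h5
    have h6 : h s = (f1 / f0) s := h4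
    rw [h6, Pi.div_apply, div_mul_cancel₀ _ h5]
  have h4 : ContinuousAt (fun s => h s * f0 s) t :=
    (hhan t ht).continuousAt.mul (h0 t ht).continuousAt
  exact ((h4.eventuallyEq_nhds_iff_eventuallyEq_nhdsNE (h1 t ht).continuousAt).1 h3).self_of_nhds

variable {U : Set (ℂ × ℂ)} (hU : IsOpen U)

/-- **Analytic continuation of a quotient.** -/
theorem quot_an {p0 : ℂ × ℂ} (hp0 : p0 ∈ U) {d : ℂ × ℂ} {g0 g1 : AnU hU}
    (hd : ¬ ∀ᶠ t : ℂ in 𝓝 0, ext0 U g0.1 (p0 + t • d) = 0)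
    (hord : ∀ p ∈ U, analyticOrderAt (fun t : ℂ => ext0 U g0.1 (p + t • d)) 0 ≤
      analyticOrderAt (fun t : ℂ => ext0 U g1.1 (p + t • d)) 0) :
    ∃ Q : ℂ × ℂ → ℂ, AnalyticAt ℂ Q p0 ∧
      ∀ᶠ p in 𝓝 p0, Q p * ext0 U g0.1 p = ext0 U g1.1 p := by
  have hp0' : p0 + (0 : ℂ) • d ∈ U := by rwa [zero_smul, add_zero]
  have h1 := ((analyticAt_line hU d p0 g0 hp0').eventually_eq_zero_or_eventually_ne_zero).resolve_left
    hd
  have h2 : ∀ᶠ t : ℂ in 𝓝 0, p0 + t • d ∈ U := (isOpen_line hU d p0).mem_nhds hp0'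
  rw [eventually_nhdsWithin_iff] at h1
  obtain ⟨r', hr', hball⟩ := Metric.eventually_nhds_iff_ball.1 (h1.and h2)
  set r := r' / 2 with hr
  have hr0 : 0 < r := by positivity
  have hin : ∀ t ∈ closedBall (0 : ℂ) r, p0 + t • d ∈ U := by
    intro t ht
    apply (hball t _).2
    rw [mem_closedBall_zero_iff] at ht
    rw [mem_ball_zero_iff]
    linarith
  have hne : ∀ t ∈ sphere (0 : ℂ) r, ext0 U g0.1 (p0 + t • d) ≠ 0 := by
    intro t ht
    rw [mem_sphere_zero_iff_norm] at ht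
    apply (hball t _).1
    · rintro rfl
      rw [norm_zero] at ht
      linarith
    · rw [mem_ball_zero_iff]
      linarith
  have hcont : ∀ (g : AnU hU) (t : ℂ), p0 + t • d ∈ U →
      ContinuousAt (fun x : (ℂ × ℂ) × ℂ => ext0 U g.1 (x.1 + x.2 • d)) (p0, t) := by
    intro g t ht
    have h3 : ContinuousAt (ext0 U g.1) (p0 + t • d) := (g.2 _ ht).continuousAt
    have h4 : ContinuousAt (fun x : (ℂ × ℂ) × ℂ => x.1 + x.2 • d) (p0, t) := by fun_prop
    exact ContinuousAt.comp (g := ext0 U g.1) (f := fun x : (ℂ × ℂ) × ℂ => x.1 + x.2 • d) h3 h4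
  -- compactness of the circle
  have hcs : IsCompact (sphere (0 : ℂ) r) := isCompact_sphere _ _
  have hcb : IsCompact (closedBall (0 : ℂ) r) := isCompact_closedBall _ _
  have hsne : (sphere (0 : ℂ) r).Nonempty := NormedSpace.sphere_nonempty.2 hr0.le
  have hc0 : ContinuousOn (fun t : ℂ => ‖ext0 U g0.1 (p0 + t • d)‖) (sphere (0 : ℂ) r) := by
    intro t ht
    exact (analyticAt_line hU d p0 g0
      (hin t (sphere_subset_closedBall ht))).continuousAt.norm.continuousWithinAt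
  obtain ⟨t0, ht0, hmin⟩ := hcs.exists_isMinOn hsne hc0
  set m := ‖ext0 U g0.1 (p0 + t0 • d)‖ with hm
  have hm0 : 0 < m := norm_pos_iff.2 (hne t0 ht0)
  have e0 : ∀ᶠ p in 𝓝 p0, ∀ t ∈ sphere (0 : ℂ) r, m / 2 ≤ ‖ext0 U g0.1 (p + t • d)‖ := by
    apply hcs.eventually_forall_of_forall_eventually
    intro t ht
    have h3 := (hcont g0 t (hin t (sphere_subset_closedBall ht))).norm
    have h4 : m / 2 < ‖ext0 U g0.1 (p0 + t • d)‖ := by
      have : m ≤ ‖ext0 U g0.1 (p0 + t • d)‖ := hmin ht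
      linarith
    exact (h3.eventually_const_lt h4).mono fun x hx => hx.le
  have e2 : ∀ᶠ p in 𝓝 p0, ∀ t ∈ closedBall (0 : ℂ) r, p + t • d ∈ U := by
    apply hcb.eventually_forall_of_forall_eventually
    intro t ht
    have h4 : ContinuousAt (fun x : (ℂ × ℂ) × ℂ => x.1 + x.2 • d) (p0, t) := by fun_prop
    exact h4.eventually_mem (hU.mem_nhds (hin t ht))
  -- the domain of the integrand
  let Om : Set ((ℂ × ℂ) × ℂ) := {x | x.1 + x.2 • d ∈ U ∧ ext0 U g0.1 (x.1 + x.2 • d) ≠ 0 ∧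
    x.2 ≠ 0}
  have hdiff : ∀ (g : AnU hU) (x : (ℂ × ℂ) × ℂ), x.1 + x.2 • d ∈ U →
      DifferentiableAt ℂ (fun x : (ℂ × ℂ) × ℂ => ext0 U g.1 (x.1 + x.2 • d)) x := by
    intro g x hx
    have h3 : DifferentiableAt ℂ (ext0 U g.1) (x.1 + x.2 • d) := (g.2 _ hx).differentiableAt
    have h4 : DifferentiableAt ℂ (fun x : (ℂ × ℂ) × ℂ => x.1 + x.2 • d) x := by fun_prop
    exact DifferentiableAt.comp (g := ext0 U g.1) (f := fun x : (ℂ × ℂ) × ℂ => x.1 + x.2 • d) x
      h3 h4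
  have hOm : IsOpen Om := by
    rw [isOpen_iff_mem_nhds]
    rintro x ⟨hx1, hx2, hx3⟩
    have h4 : ContinuousAt (fun x : (ℂ × ℂ) × ℂ => x.1 + x.2 • d) x := by fun_prop
    filter_upwards [h4.eventually_mem (hU.mem_nhds hx1),
      (hdiff g0 x hx1).continuousAt.eventually_ne hx2,
      (continuous_snd.continuousAt (x := x)).eventually_ne hx3] with z hz1 hz2 hz3
    exact ⟨hz1, hz2, hz3⟩
  obtain ⟨V, hVsub, hVo, hpV⟩ := _root_.mem_nhds_iff.1 (e0.and e2)
  have hF : DifferentiableOn ℂ (fun x : (ℂ × ℂ) × ℂ =>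
      x.2⁻¹ * (ext0 U g1.1 (x.1 + x.2 • d) / ext0 U g0.1 (x.1 + x.2 • d))) Om := by
    rintro x ⟨hx1, hx2, hx3⟩
    apply DifferentiableAt.differentiableWithinAt
    simp only [div_eq_mul_inv]
    exact (differentiableAt_snd.inv hx3).mul ((hdiff g1 x hx1).mul ((hdiff g0 x hx1).inv hx2))
  have hpar := Pool.Agent.Helper417.Mer.Hartogs673.param_circle hOm hF (r := r) hVo (by
    intro p hp ξ hξ
    rw [abs_of_pos hr0] at hξ
    obtain ⟨q0, q2⟩ := hVsub hp
    refine ⟨q2 ξ (sphere_subset_closedBall hξ), ?_, ?_⟩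
    · have := q0 ξ hξ
      rw [← norm_pos_iff]
      change 0 < ‖ext0 U g0.1 (p + ξ • d)‖
      linarith
    · rintro h0
      change ξ = 0 at h0
      rw [h0, mem_sphere_zero_iff_norm, norm_zero] at hξ
      linarith)
  refine ⟨fun p => (2 * Real.pi * Complex.I)⁻¹ * ∮ ξ in C(0, r),
    ξ⁻¹ * (ext0 U g1.1 (p + ξ • d) / ext0 U g0.1 (p + ξ • d)), ?_, ?_⟩
  · exact analytic_of_diff hVo (hpar.const_mul _) hpV
  filter_upwards [hVo.mem_nhds hpV] with p hp
  obtain ⟨q0, q2⟩ := hVsub hp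
  obtain ⟨h, hh1, hh2⟩ := disc_quot (f0 := fun t : ℂ => ext0 U g0.1 (p + t • d))
    (f1 := fun t : ℂ => ext0 U g1.1 (p + t • d)) hr0 (by positivity : 0 < m / 2)
    (fun t ht => analyticAt_line hU d p g0 (q2 t ht))
    (fun t ht => analyticAt_line hU d p g1 (q2 t ht)) q0 (by
      intro t ht
      rw [← line_shift d p t, ← line_shift d p t]
      exact hord _ (q2 t ht))
  have h5 : ∮ ξ in C(0, r), ξ⁻¹ * (ext0 U g1.1 (p + ξ • d) / ext0 U g0.1 (p + ξ • d)) =
      ∮ ξ in C(0, r), (ξ - 0)⁻¹ • h ξ := by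
    apply circleIntegral.integral_congr hr0.le
    intro ξ hξ
    have h6 := q0 ξ hξ
    have h7 : ext0 U g0.1 (p + ξ • d) ≠ 0 := by
      rw [← norm_pos_iff]
      linarith
    have h8 := hh2 ξ (sphere_subset_closedBall hξ)
    change ξ⁻¹ * (ext0 U g1.1 (p + ξ • d) / ext0 U g0.1 (p + ξ • d)) = (ξ - 0)⁻¹ * h ξ
    rw [sub_zero, ← h8, mul_div_assoc, div_self h7, mul_one]
  have h6 : ∮ ξ in C(0, r), (ξ - 0)⁻¹ • h ξ = (2 * Real.pi * Complex.I : ℂ) • h 0 := by
    have hd : DiffContOnCl ℂ h (ball (0 : ℂ) r) := by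
      apply DifferentiableOn.diffContOnCl
      intro t ht
      rw [closure_ball _ hr0.ne'] at ht
      exact (hh1 t ht).differentiableAt.differentiableWithinAt
    exact hd.circleIntegral_sub_inv_smul (mem_ball_self hr0)
  have h7 := hh2 0 (mem_closedBall_self hr0.le)
  simp only [zero_smul, add_zero] at h7
  rw [h5, h6, smul_eq_mul, ← mul_assoc, inv_mul_cancel₀ Complex.two_pi_I_ne_zero, one_mul, h7]

end Pool.Agent.U647.IS
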