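import Pool.Agent.U647.IS.Eta

/-!
# Surfaces of general type have positive 2-forms with values in `O (-1)`

For a smooth projective surface of general type there is a holomorphic section of the tensor product
of a power of the canonical bundle and `O (-1)`, which is not zero outside a curve.
-/

set_option autoImplicit false

open Filter Topology Set Metric MvPolynomial FF

namespace Pool.Agent.U647.IS

open Pool.Agent.N155 Pool.Agent.W602.GT Pool.Agent.TH143.GT
open Pool.Agent.N154.TB (TwoForms Twisted HolForms PosForms Zeros)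

variable {n : ℕ} {ι : Type} {F : ι → MvPolynomial (Fin (n + 1)) ℂ} {K : Type} [Field K]
  [Algebra ℂ K] {y : Fin (n + 1) → K}

theorem graph_conv {X : Set (Fin (n + 1) → ℂ)} {x : Fin (n + 1) → ℂ} (h : GraphAt X x) :
    Pool.Agent.N154.GG.GraphAt X 2 x := by
  obtain ⟨i, j, k, U, Ψ, hi, hU, hmem, hΨ, hΨX, hnear⟩ := h
  have hpr : ∀ z : Fin 2 → ℂ, AnalyticAt ℂ (fun z : Fin 2 → ℂ => ((z 0, z 1) : ℂ × ℂ)) z := by
    intro z
    exact ((ContinuousLinearMap.proj (R := ℂ) (φ := fun _ : Fin 2 => ℂ) 0).analyticAt z).prod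
      ((ContinuousLinearMap.proj (R := ℂ) (φ := fun _ : Fin 2 => ℂ) 1).analyticAt z)
  refine ⟨i, ![j, k], {z | ((z 0, z 1) : ℂ × ℂ) ∈ U}, fun z => Ψ (z 0, z 1), hi, ?_, ?_, ?_, ?_, ?_⟩
  · exact hU.preimage (by fun_prop)
  · exact hmem
  · intro z hz
    exact AnalyticAt.fun_comp (g := Ψ) (f := fun z : Fin 2 → ℂ => ((z 0, z 1) : ℂ × ℂ))
      (hΨ _ hz) (hpr z)
  · intro z hz
    obtain ⟨h1, h2, h3, h4⟩ := hΨX _ hz
    refine ⟨h1, h2, fun l => ?_⟩
    fin_cases l
    · exact h3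
    · exact h4
  · exact hnear

/-- **Positive 2-forms on surfaces of general type.** -/
theorem exists_twoForms (hX : SmoothSurface F y) (hgt : GeneralType ℂ K 2) :
    ∃ (G : MvPolynomial (Fin (n + 1)) ℂ)
      (η : Unit → (Fin (n + 1) → ℂ) → (Fin (n + 1) → ℂ) → (Fin (n + 1) → ℂ) → ℂ),
      IsForm G ∧ val y G ≠ 0 ∧ ∀ (m : ℕ) (Λ : Submodule ℤ (Fin m → ℂ))
        (α : (Fin (n + 1) → ℂ) → (Fin m → ℂ) ⧸ Λ),
        TwoForms (Cone F) (Zeros fun _ : Unit => G) 2 α (fun _ => 1) η := by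
  classical
  obtain ⟨M, q, hfam⟩ := exists_family (y := y) hgt hX.sub.ne
  have hq : Coef y M q :=
    ⟨fun i j k hi ht => (hfam i j k hi ht).1, fun i j k hi ht E hE => ((hfam i j k hi ht).2 E hE).1,
      fun i j k hi ht E hE => ((hfam i j k hi ht).2 E hE).2⟩
  let R : ∀ h : K, Frac y h := fr hX.sub.gen
  have hcon : ∀ x ∈ Cone F, ∀ c : ℂ, c ≠ 0 → c • x ∈ Cone F := fun x hx c hc =>
    (Pool.Agent.N154.TB.cone_conic hX.form x hx).2 c hc
  let g : Fin (n + 1) × Fin (n + 1) × Fin (n + 1) → MvPolynomial (Fin (n + 1)) ℂ := fun t =>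
    if val y (R (q t.1 t.2.1 t.2.2)).G1 ≠ 0 then (R (q t.1 t.2.1 t.2.2)).G1 else 1
  have hg : ∀ t, IsForm (g t) ∧ val y (g t) ≠ 0 := by
    intro t
    change IsForm (if _ then _ else _) ∧ val y (if _ then _ else _) ≠ 0
    split_ifs with h
    · exact ⟨⟨_, (R (q t.1 t.2.1 t.2.2)).h1⟩, h⟩
    · exact ⟨⟨0, isHomogeneous_one _ _⟩, by rw [val_one']; exact one_ne_zero⟩
  choose d hd using fun t => (hg t).1
  refine ⟨∏ t, g t, fun _ => eta F R q M, ⟨∑ t, d t, IsHomogeneous.prod _ _ _ fun t _ => hd t⟩, ?_,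
    fun m Λ α => ?_⟩
  · have h1 : val y (∏ t, g t) = ∏ t, val y (g t) := by
      unfold val
      rw [map_prod]
    rw [h1]
    exact Finset.prod_ne_zero_iff.2 fun t _ => (hg t).2
  refine ⟨fun x hx _ => graph_conv (hX.smooth x hx), ⟨?_, fun _ => le_rfl, fun _ h => by simp at h⟩,
    ⟨?_, fun x hx h => absurd (graph_conv (hX.smooth x hx)) h⟩, ?_⟩
  · intro _ x hx v w c e f hc
    rw [pow_one]
    exact eta_twist hq hX.sub hX.irred R hcon hX.smooth hx v w c e f hc
  · intro _ U Ψ hU hΨ hΨX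
    exact eta_hol hq hX.sub hX.irred R hcon hX.smooth hU hΨ hΨX
  · intro U Ψ W hU hΨ _ hΨX z hz hS a b hind _
    refine ⟨(), eta_pos hq hX.sub hX.irred R hcon hX.smooth hU hΨ (fun z hz => (hΨX z hz).1) hz
      ?_ a b hind⟩
    intro i j k hi ht h0
    apply hS
    intro _
    rw [val_eval, map_prod]
    apply Finset.prod_eq_zero (Finset.mem_univ ((i, j, k) : Fin (n + 1) × Fin (n + 1) × Fin (n + 1)))
    have h1 : val y (R (q i j k)).G1 ≠ 0 := by
      intro h2
      apply hq.ne i j k hi ht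
      have h3 := (R (q i j k)).eq
      rw [h2, zero_div] at h3
      exact h3
    have h4 : g (i, j, k) = (R (q i j k)).G1 := if_pos h1
    rw [h4]
    exact h0

end Pool.Agent.U647.IS
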